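import Mathlib

/-!
# Metacompact products and closure-preserving covers by compact sets: basic lemmas

`Metacompact Z` says that every open cover of `Z` has a point-finite open refinement. For a family
`F` of subsets of `Y` (closure-preserving, its members being compact and closed), `sig F y` is
the set of the members of `F` which contain `y`. The preorder `sig F y ⊆ sig F z` has open lower sets
and, on `⋃₀ F`, compact upper sets; so each closed subset `R` of `⋃₀ F` has enough maximal classes,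
and the family of these classes is discrete.
-/

namespace Pool.Agent.H60R3.CPC

open Set Filter Topology

universe u v

/-- Every open cover has a point-finite open refinement. -/
def Metacompact (Z : Type*) [TopologicalSpace Z] : Prop :=
  ∀ 𝒰 : Set (Set Z), (∀ U ∈ 𝒰, IsOpen U) → ⋃₀ 𝒰 = Set.univ →
    ∃ 𝒱 : Set (Set Z), (∀ V ∈ 𝒱, IsOpen V) ∧ ⋃₀ 𝒱 = Set.univ ∧
      (∀ V ∈ 𝒱, ∃ U ∈ 𝒰, V ⊆ U) ∧ ∀ x : Z, {V | V ∈ 𝒱 ∧ x ∈ V}.Finite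

theorem Metacompact.indexed {Z : Type*} [TopologicalSpace Z] (h : Metacompact Z) {ι : Type*}
    (U : ι → Set Z) (hU : ∀ i, IsOpen (U i)) (R : Set Z) (hR : IsClosed R) (hc : R ⊆ ⋃ i, U i) :
    ∃ P : ι → Set Z, (∀ i, IsOpen (P i)) ∧ (∀ i, P i ⊆ U i) ∧ (R ⊆ ⋃ i, P i) ∧
      ∀ x, {i | x ∈ P i}.Finite := by
  rcases isEmpty_or_nonempty ι with hι | hι
  · exact ⟨U, hU, fun i => Subset.rfl, hc, fun x => Set.toFinite _⟩
  obtain ⟨𝒱, h1, h2, h3, h4⟩ := h (Set.range U ∪ {Rᶜ}) (by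
    rintro V (⟨i, rfl⟩ | rfl)
    · exact hU i
    · exact hR.isOpen_compl) (by
    rw [Set.eq_univ_iff_forall]
    intro x
    by_cases hx : x ∈ R
    · obtain ⟨i, hi⟩ := mem_iUnion.1 (hc hx)
      exact ⟨U i, Or.inl ⟨i, rfl⟩, hi⟩
    · exact ⟨Rᶜ, Or.inr rfl, hx⟩)
  have h5 : ∀ V : Set Z, V ∈ 𝒱 → (V ∩ R).Nonempty → ∃ i, V ⊆ U i := by
    rintro V hV ⟨x, hx, hxR⟩
    obtain ⟨W, hW, hVW⟩ := h3 V hV
    rcases hW with ⟨i, rfl⟩ | rfl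
    · exact ⟨i, hVW⟩
    · exact absurd hxR (hVW hx)
  choose! f hf using h5
  refine ⟨fun i => ⋃₀ {V | V ∈ 𝒱 ∧ (V ∩ R).Nonempty ∧ f V = i}, ?_, ?_, ?_, ?_⟩
  · intro i
    exact isOpen_sUnion fun V hV => h1 V hV.1
  · rintro i x ⟨V, ⟨hV, hn, rfl⟩, hx⟩
    exact hf V hV hn hx
  · intro x hx
    have h6 : x ∈ ⋃₀ 𝒱 := by rw [h2]; trivial
    obtain ⟨V, hV, hxV⟩ := h6
    exact mem_iUnion.2 ⟨f V, V, ⟨hV, ⟨x, hxV, hx⟩, rfl⟩, hxV⟩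
  · intro x
    refine ((h4 x).image f).subset ?_
    rintro i ⟨V, ⟨hV, hn, rfl⟩, hx⟩
    exact ⟨V, ⟨hV, hx⟩, rfl⟩

variable {Y : Type u} {X : Type v} [TopologicalSpace Y] [TopologicalSpace X]

theorem tube (hX : Metacompact X) (𝒪 : Set (Set (Y × X))) (hO : ∀ O ∈ 𝒪, IsOpen O)
    (hc : ⋃₀ 𝒪 = univ) (K : Set Y) (hK : IsCompact K) :
    ∃ B : Set (Set X), (∀ b ∈ B, IsOpen b) ∧ ⋃₀ B = univ ∧ (∀ x, {b | b ∈ B ∧ x ∈ b}.Finite) ∧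
      ∀ b ∈ B, ∃ V : Set Y, IsOpen V ∧ K ⊆ V ∧ ∃ G : Set (Set (Y × X)), G.Finite ∧ G ⊆ 𝒪 ∧
        V ×ˢ b ⊆ ⋃₀ G := by
  obtain ⟨B, h1, h2, h3, h4⟩ := hX {b | IsOpen b ∧ ∃ V : Set Y, IsOpen V ∧ K ⊆ V ∧
    ∃ G : Set (Set (Y × X)), G.Finite ∧ G ⊆ 𝒪 ∧ V ×ˢ b ⊆ ⋃₀ G} (fun b hb => hb.1) (by
    rw [Set.eq_univ_iff_forall]
    intro x
    have hKx : IsCompact (K ×ˢ ({x} : Set X)) := hK.prod isCompact_singleton
    obtain ⟨t, ht⟩ := hKx.elim_finite_subcover (fun O : 𝒪 => (O : Set (Y × X)))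
      (fun O => hO O.1 O.2) (by
        intro p _
        have : p ∈ ⋃₀ 𝒪 := by rw [hc]; trivial
        obtain ⟨O, hO', hp⟩ := this
        exact mem_iUnion.2 ⟨⟨O, hO'⟩, hp⟩)
    obtain ⟨V, b, hV, hb, hKV, hxb, hVb⟩ := generalized_tube_lemma hK isCompact_singleton
      (isOpen_biUnion fun O (_ : O ∈ t) => hO O.1 O.2) ht
    refine ⟨b, ⟨hb, V, hV, hKV, (fun O : 𝒪 => (O : Set (Y × X))) '' (t : Set 𝒪),
      t.finite_toSet.image _, ?_, ?_⟩, hxb (mem_singleton x)⟩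
    · rintro _ ⟨O, _, rfl⟩
      exact O.2
    · intro p hp
      obtain ⟨O, hOt, hpO⟩ := mem_iUnion₂.1 (hVb hp)
      exact ⟨O.1, ⟨O, hOt, rfl⟩, hpO⟩)
  refine ⟨B, h1, h2, h4, fun b hb => ?_⟩
  obtain ⟨U, ⟨_, V, hV, hKV, G, hG, hGO, hVG⟩, hbU⟩ := h3 b hb
  exact ⟨V, hV, hKV, G, hG, hGO, (Set.prod_mono Subset.rfl hbU).trans hVG⟩

/-- The members of `F` which contain `y`. -/
def sig (F : Set (Set Y)) (y : Y) : Set (Set Y) := {C | C ∈ F ∧ y ∈ C}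

theorem isOpen_low {F : Set (Set Y)} (hF : ∀ G ⊆ F, IsClosed (⋃₀ G)) (y : Y) :
    IsOpen {z | sig F z ⊆ sig F y} := by
  have h1 : {z | sig F z ⊆ sig F y} = (⋃₀ {C | C ∈ F ∧ y ∉ C})ᶜ := by
    ext z
    simp only [Set.mem_ofPred_eq, mem_compl_iff, mem_sUnion, not_exists, not_and]
    constructor
    · rintro h C ⟨hC, hy⟩ hz
      exact hy (h ⟨hC, hz⟩).2
    · rintro h C ⟨hC, hz⟩
      by_contra hn
      exact h C ⟨hC, fun hy => hn ⟨hC, hy⟩⟩ hz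
  rw [h1]
  exact (hF _ fun C hC => hC.1).isOpen_compl

/-- The maximal signatures of points of `R`. -/
def mx (F : Set (Set Y)) (R : Set Y) : Set (Set (Set Y)) :=
  {c | ∃ z ∈ R, sig F z = c ∧ ∀ w ∈ R, c ⊆ sig F w → sig F w = c}

/-- The class of `R` with signature `c`. -/
def cls (F : Set (Set Y)) (R : Set Y) (c : Set (Set Y)) : Set Y := {w | w ∈ R ∧ sig F w = c}

theorem exists_mx {F : Set (Set Y)} (hF : ∀ G ⊆ F, IsClosed (⋃₀ G))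
    (hK : ∀ A ∈ F, IsCompact A ∧ IsClosed A) {R : Set Y} (hR : IsClosed R) (hRF : R ⊆ ⋃₀ F)
    {w : Y} (hw : w ∈ R) : ∃ c ∈ mx F R, sig F w ⊆ c := by
  obtain ⟨C, hC, hwC⟩ := hRF hw
  have hA : IsCompact (R ∩ ⋂₀ sig F w) := by
    refine (hK C hC).1.of_isClosed_subset (hR.inter (isClosed_sInter fun A hA => (hK A hA.1).2)) ?_
    exact fun z hz => hz.2 C ⟨hC, hwC⟩
  obtain ⟨t, ht⟩ := hA.elim_finite_subcover
    (fun v : (R ∩ ⋂₀ sig F w : Set Y) => {z | sig F z ⊆ sig F (v : Y)})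
    (fun v => isOpen_low hF v) (fun z hz => mem_iUnion.2 ⟨⟨z, hz⟩, Subset.rfl⟩)
  have hwA : w ∈ R ∩ ⋂₀ sig F w := ⟨hw, fun A hA => hA.2⟩
  have htn : t.Nonempty := by
    obtain ⟨v, hv, _⟩ := mem_iUnion₂.1 (ht hwA)
    exact ⟨v, hv⟩
  obtain ⟨v, hv⟩ := Finset.exists_maximalFor
    (fun v : (R ∩ ⋂₀ sig F w : Set Y) => sig F (v : Y)) t htn
  have hle : ∀ z : Y, z ∈ R ∩ ⋂₀ sig F w → sig F w ⊆ sig F z := fun z hz A hA =>
    ⟨hA.1, hz.2 A hA⟩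
  refine ⟨sig F (v : Y), ⟨v, v.2.1, rfl, ?_⟩, hle v v.2⟩
  intro z hz hvz
  have hzA : z ∈ R ∩ ⋂₀ sig F w := ⟨hz, fun A hA => (hvz (hle v v.2 hA)).2⟩
  obtain ⟨v', hv', hzv'⟩ := mem_iUnion₂.1 (ht hzA)
  have h1 : sig F (v' : Y) ⊆ sig F (v : Y) := hv.2 hv' (hvz.trans hzv')
  exact (Subset.trans hzv' h1).antisymm hvz

theorem isCompact_cls {F : Set (Set Y)}
    (hK : ∀ A ∈ F, IsCompact A ∧ IsClosed A) {R : Set Y} (hR : IsClosed R) (hRF : R ⊆ ⋃₀ F)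
    {c : Set (Set Y)} (hc : c ∈ mx F R) : IsCompact (cls F R c) := by
  obtain ⟨z, hz, rfl, hmax⟩ := hc
  obtain ⟨C, hC, hzC⟩ := hRF hz
  have h1 : cls F R (sig F z) = R ∩ ⋂₀ sig F z := by
    ext w
    constructor
    · rintro ⟨hw, hs⟩
      refine ⟨hw, fun A hA => ?_⟩
      rw [← hs] at hA
      exact hA.2
    · rintro ⟨hw, hs⟩
      exact ⟨hw, hmax w hw fun A hA => ⟨hA.1, hs A hA⟩⟩
  rw [h1]
  refine (hK C hC).1.of_isClosed_subset (hR.inter (isClosed_sInter fun A hA => (hK A hA.1).2)) ?_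
  exact fun z hz => hz.2 C ⟨hC, hzC⟩

end Pool.Agent.H60R3.CPC
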