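import Mathlib
import Pool.Agent.H60R3.CpcBasic

/-!
# Metacompact products and closure-preserving covers by compact sets: the tree

For one closure-preserving family `F n` of compact closed sets we construct a tree of closed regions
of `⋃₀ F n`. A region `R` has the discrete family of its maximal classes; they have
neighbourhoods `P c` which form a point-finite family covering `R`, and for each `c` there is a
point-finite open cover `B c` of the second factor, with neighbourhoods `V c b` of the class.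
The leaves of the tree form a point-finite family which covers `(⋃₀ F n) × X`.
-/

namespace Pool.Agent.H60R3.CPC

open Set Filter Topology

universe u v

variable {Y : Type u} {X : Type v} [TopologicalSpace Y] [TopologicalSpace X]

/-- The data chosen for a closed region `R`. -/
structure RegData (F : Set (Set Y)) (𝒪 : Set (Set (Y × X))) (R : Set Y) where
  /-- the point-finite open family -/
  P : Set (Set Y) → Set Y
  /-- the point-finite covers of the second factor -/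
  B : Set (Set Y) → Set (Set X)
  /-- the neighbourhoods of the maximal classes -/
  V : Set (Set Y) → Set X → Set Y
  /-- the finite subfamilies of the given cover -/
  G : Set (Set Y) → Set X → Set (Set (Y × X))
  P_open : ∀ c, IsOpen (P c)
  P_fin : ∀ y, {c | y ∈ P c}.Finite
  P_sub : ∀ c y, y ∈ P c → c ∈ mx F R ∧ sig F y ⊆ c
  P_cover : R ⊆ ⋃ c, P c
  B_open : ∀ c, ∀ b ∈ B c, IsOpen b
  B_cover : ∀ c ∈ mx F R, ⋃₀ B c = univ
  B_fin : ∀ c x, {b | b ∈ B c ∧ x ∈ b}.Finite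
  V_open : ∀ c b, IsOpen (V c b)
  V_cls : ∀ c ∈ mx F R, ∀ b ∈ B c, cls F R c ⊆ V c b
  G_fin : ∀ c b, (G c b).Finite
  G_sub : ∀ c b, G c b ⊆ 𝒪
  G_cover : ∀ c b, V c b ×ˢ b ⊆ ⋃₀ G c b

theorem exists_regData (hY : Metacompact Y) (hX : Metacompact X) {F : Set (Set Y)}
    (hF : ∀ G ⊆ F, IsClosed (⋃₀ G)) (hK : ∀ A ∈ F, IsCompact A ∧ IsClosed A)
    (𝒪 : Set (Set (Y × X))) (hO : ∀ O ∈ 𝒪, IsOpen O) (hc : ⋃₀ 𝒪 = univ)
    {R : Set Y} (hR : IsClosed R) (hRF : R ⊆ ⋃₀ F) : Nonempty (RegData F 𝒪 R) := by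
  obtain ⟨P, hP1, hP2, hP3, hP4⟩ := hY.indexed
    (fun c : Set (Set Y) => {y | c ∈ mx F R ∧ sig F y ⊆ c}) (by
      intro c
      by_cases hcm : c ∈ mx F R
      · obtain ⟨z, hz, rfl, _⟩ := id hcm
        have : {y | sig F z ∈ mx F R ∧ sig F y ⊆ sig F z} = {y | sig F y ⊆ sig F z} := by
          ext y
          exact ⟨fun h => h.2, fun h => ⟨hcm, h⟩⟩
        change IsOpen {y | sig F z ∈ mx F R ∧ sig F y ⊆ sig F z}
        rw [this]
        exact isOpen_low hF z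
      · have : {y | c ∈ mx F R ∧ sig F y ⊆ c} = ∅ := by
          ext y
          exact ⟨fun h => hcm h.1, fun h => h.elim⟩
        change IsOpen {y | c ∈ mx F R ∧ sig F y ⊆ c}
        rw [this]
        exact isOpen_empty) R hR (by
      intro y hy
      obtain ⟨c, hcm, hyc⟩ := exists_mx hF hK hR hRF hy
      exact mem_iUnion.2 ⟨c, hcm, hyc⟩)
  have h1 : ∀ c : Set (Set Y), ∃ (B : Set (Set X)) (V : Set X → Set Y)
      (G : Set X → Set (Set (Y × X))), (∀ b ∈ B, IsOpen b) ∧ (c ∈ mx F R → ⋃₀ B = univ) ∧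
      (∀ x, {b | b ∈ B ∧ x ∈ b}.Finite) ∧ (∀ b, IsOpen (V b)) ∧
      (c ∈ mx F R → ∀ b ∈ B, cls F R c ⊆ V b) ∧ (∀ b, (G b).Finite) ∧ (∀ b, G b ⊆ 𝒪) ∧
      (∀ b, V b ×ˢ b ⊆ ⋃₀ G b) := by
    intro c
    by_cases hcm : c ∈ mx F R
    · obtain ⟨B, hB1, hB2, hB3, hB4⟩ := tube hX 𝒪 hO hc _ (isCompact_cls hK hR hRF hcm)
      have h2 : ∀ b : Set X, ∃ (V : Set Y) (G : Set (Set (Y × X))), IsOpen V ∧
          (b ∈ B → cls F R c ⊆ V) ∧ G.Finite ∧ G ⊆ 𝒪 ∧ V ×ˢ b ⊆ ⋃₀ G := by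
        intro b
        by_cases hb : b ∈ B
        · obtain ⟨V, hV, hKV, G, hG1, hG2, hG3⟩ := hB4 b hb
          exact ⟨V, G, hV, fun _ => hKV, hG1, hG2, hG3⟩
        · exact ⟨∅, ∅, isOpen_empty, fun h => absurd h hb, Set.finite_empty,
            Set.empty_subset _, by simp⟩
      choose V G h3 h4 h5 h6 h7 using h2
      exact ⟨B, V, G, hB1, fun _ => hB2, hB3, h3, fun _ b hb => h4 b hb, h5, h6, h7⟩
    · exact ⟨∅, fun _ => ∅, fun _ => ∅, fun b hb => hb.elim, fun h => absurd h hcm,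
        fun x => by simp, fun b => isOpen_empty, fun h => absurd h hcm,
        fun b => Set.finite_empty, fun b => Set.empty_subset _, fun b => by simp⟩
  choose B V G h1 h2 h3 h4 h5 h6 h7 h8 using h1
  exact ⟨⟨P, B, V, G, hP1, hP4, fun c y hy => hP2 c hy, hP3, h1, h2, h3, h4, h5, h6, h7, h8⟩⟩

section Tree

variable (F : ℕ → Set (Set Y)) (n : ℕ) (𝒪 : Set (Set (Y × X)))

/-- The closed regions. -/
abbrev Reg : Type u := {R : Set Y // IsClosed R ∧ R ⊆ ⋃₀ F n}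

/-- The labels of the edges of the tree. -/
abbrev Lab (Y : Type u) (X : Type v) : Type (max u v) := Finset (Set (Set Y) × Set X)

variable (hF : ∀ m, ∀ G ⊆ F m, IsClosed (⋃₀ G))
  (hK : ∀ m, ∀ A ∈ F m, IsCompact A ∧ IsClosed A)
  (D : ∀ R : Reg F n, RegData (F n) 𝒪 R.1)

/-- The neighbourhood of a maximal class used at depth `k`. -/
def Vk (k : ℕ) (R : Reg F n) (c : Set (Set Y)) (b : Set X) : Set Y :=
  ((D R).V c b ∩ (D R).P c) ∩
    ⋂ m ∈ Finset.range (k + 1), ⋃ w ∈ cls (F n) R.1 c, {y | sig (F m) y ⊆ sig (F m) w}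

include hF in
theorem isOpen_Vk (k : ℕ) (R : Reg F n) (c : Set (Set Y)) (b : Set X) :
    IsOpen (Vk F n 𝒪 D k R c b) :=
  (((D R).V_open c b).inter ((D R).P_open c)).inter
    (isOpen_biInter_finset fun m _ => isOpen_biUnion fun w _ => isOpen_low (hF m) w)

/-- The next region. -/
def next (k : ℕ) (R : Reg F n) (s : Lab Y X) : Reg F n :=
  ⟨{y | y ∈ R.1 ∧ (∀ c, y ∈ (D R).P c → ∃ b, (c, b) ∈ s) ∧
      ∀ q ∈ s, y ∉ Vk F n 𝒪 D k R q.1 q.2}, by
    constructor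
    · have h1 : {y | y ∈ R.1 ∧ (∀ c, y ∈ (D R).P c → ∃ b, (c, b) ∈ s) ∧
          ∀ q ∈ s, y ∉ Vk F n 𝒪 D k R q.1 q.2} = R.1 ∩
          ((⋂ c ∈ {c : Set (Set Y) | ¬ ∃ b, (c, b) ∈ s}, ((D R).P c)ᶜ) ∩
            ⋂ q ∈ s, (Vk F n 𝒪 D k R q.1 q.2)ᶜ) := by
        ext y
        constructor
        · rintro ⟨h1, h2, h3⟩
          refine ⟨h1, mem_iInter₂.2 fun c hc hy => hc (h2 c hy), mem_iInter₂.2 fun q hq => h3 q hq⟩
        · rintro ⟨h1, h2, h3⟩
          refine ⟨h1, fun c hy => ?_, fun q hq => mem_iInter₂.1 h3 q hq⟩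
          by_contra hn
          exact mem_iInter₂.1 h2 c hn hy
      rw [h1]
      exact R.2.1.inter ((isClosed_biInter fun c _ => ((D R).P_open c).isClosed_compl).inter
        (isClosed_biInter fun q _ => (isOpen_Vk F n 𝒪 hF D k R q.1 q.2).isClosed_compl))
    · exact fun y hy => R.2.2 hy.1⟩

/-- The region at a node of the tree. -/
def reg : List (Lab Y X) → Reg F n
  | [] => ⟨⋃₀ F n, hF n _ Subset.rfl, Subset.rfl⟩
  | s :: l => next F n 𝒪 hF D l.length (reg l) s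

/-- The labels which are relevant for a point. -/
def act (R : Reg F n) (p : Y × X) : Set (Set (Set Y) × Set X) :=
  {q | p.1 ∈ (D R).P q.1 ∧ q.2 ∈ (D R).B q.1 ∧ p.2 ∈ q.2}

theorem act_finite (R : Reg F n) (p : Y × X) : (act F n 𝒪 D R p).Finite := by
  have h1 : (⋃ c ∈ {c | p.1 ∈ (D R).P c},
      (fun b => (c, b)) '' {b | b ∈ (D R).B c ∧ p.2 ∈ b}).Finite :=
    ((D R).P_fin p.1).biUnion fun c _ => ((D R).B_fin c p.2).image _
  refine h1.subset ?_
  rintro ⟨c, b⟩ ⟨h2, h3, h4⟩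
  exact mem_iUnion₂.2 ⟨c, h2, b, ⟨h3, h4⟩, rfl⟩

/-- The node is relevant for the point. -/
def Good : List (Lab Y X) → Y × X → Prop
  | [], _ => True
  | s :: l, p => Good l p ∧ ∀ q ∈ s, q ∈ act F n 𝒪 D (reg F n 𝒪 hF D l) p

/-- The leaves. -/
def leaf (l : List (Lab Y X)) (c : Set (Set Y)) (b : Set X) : Set (Y × X) :=
  {p | Good F n 𝒪 hF D l p ∧ p.1 ∈ Vk F n 𝒪 D l.length (reg F n 𝒪 hF D l) c b ∧
    b ∈ (D (reg F n 𝒪 hF D l)).B c ∧ p.2 ∈ b}

theorem isOpen_good (l : List (Lab Y X)) : IsOpen {p | Good F n 𝒪 hF D l p} := by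
  induction l with
  | nil =>
    change IsOpen {p : Y × X | True}
    simp
  | cons s l ih =>
    have h1 : {p | Good F n 𝒪 hF D (s :: l) p} = {p | Good F n 𝒪 hF D l p} ∩
        ⋂ q ∈ s, {p | q ∈ act F n 𝒪 D (reg F n 𝒪 hF D l) p} := by
      ext p
      constructor
      · rintro ⟨h1, h2⟩
        exact ⟨h1, mem_iInter₂.2 fun q hq => h2 q hq⟩
      · rintro ⟨h1, h2⟩
        exact ⟨h1, fun q hq => mem_iInter₂.1 h2 q hq⟩
    rw [h1]
    refine ih.inter (isOpen_biInter_finset fun q _ => ?_)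
    by_cases hq : q.2 ∈ (D (reg F n 𝒪 hF D l)).B q.1
    · have h2 : {p | q ∈ act F n 𝒪 D (reg F n 𝒪 hF D l) p} =
          ((D (reg F n 𝒪 hF D l)).P q.1) ×ˢ q.2 := by
        ext p
        exact ⟨fun h => ⟨h.1, h.2.2⟩, fun h => ⟨h.1, hq, h.2⟩⟩
      rw [h2]
      exact ((D _).P_open _).prod ((D _).B_open _ _ hq)
    · have h2 : {p | q ∈ act F n 𝒪 D (reg F n 𝒪 hF D l) p} = ∅ := by
        ext p
        exact ⟨fun h => hq h.2.1, fun h => h.elim⟩
      rw [h2]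
      exact isOpen_empty

theorem isOpen_leaf (l : List (Lab Y X)) (c : Set (Set Y)) (b : Set X) :
    IsOpen (leaf F n 𝒪 hF D l c b) := by
  by_cases hb : b ∈ (D (reg F n 𝒪 hF D l)).B c
  · have h1 : leaf F n 𝒪 hF D l c b = {p | Good F n 𝒪 hF D l p} ∩
        (Vk F n 𝒪 D l.length (reg F n 𝒪 hF D l) c b ×ˢ b) := by
      ext p
      exact ⟨fun h => ⟨h.1, h.2.1, h.2.2.2⟩, fun h => ⟨h.1, h.2.1, hb, h.2.2⟩⟩
    rw [h1]
    exact (isOpen_good F n 𝒪 hF D l).inter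
      ((isOpen_Vk F n 𝒪 hF D _ _ _ _).prod ((D _).B_open _ _ hb))
  · have h1 : leaf F n 𝒪 hF D l c b = ∅ := by
      ext p
      exact ⟨fun h => hb h.2.2.1, fun h => h.elim⟩
    rw [h1]
    exact isOpen_empty

include hK in
/-- There is no infinite path in the tree whose regions have a common point. -/
theorem no_path (s : ℕ → Lab Y X) (l : ℕ → List (Lab Y X)) (h0 : l 0 = [])
    (hs : ∀ k, l (k + 1) = s k :: l k)
    (hB : ∀ k, ∀ q ∈ s k, q.2 ∈ (D (reg F n 𝒪 hF D (l k))).B q.1)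
    (p : Y) (hp : ∀ k, p ∈ (reg F n 𝒪 hF D (l k)).1) : False := by
  have hlen : ∀ k, (l k).length = k := by
    intro k
    induction k with
    | zero => rw [h0]; rfl
    | succ k ih => rw [hs, List.length_cons, ih]
  have hreg : ∀ k, reg F n 𝒪 hF D (l (k + 1)) =
      next F n 𝒪 hF D k (reg F n 𝒪 hF D (l k)) (s k) := by
    intro k
    rw [hs k]
    change next F n 𝒪 hF D (l k).length (reg F n 𝒪 hF D (l k)) (s k) = _
    rw [hlen k]
  have hmono : ∀ j k, j ≤ k → (reg F n 𝒪 hF D (l k)).1 ⊆ (reg F n 𝒪 hF D (l j)).1 := by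
    intro j k hjk
    induction k, hjk using Nat.le_induction with
    | base => exact Subset.rfl
    | succ k _ ih =>
      refine Subset.trans ?_ ih
      rw [hreg k]
      exact fun y hy => hy.1
  -- the choices along the path
  have h1 : ∀ k, ∃ (c : Set (Set Y)) (b : Set X) (z : Y), (c, b) ∈ s k ∧
      z ∈ (reg F n 𝒪 hF D (l k)).1 ∧ sig (F n) z = c ∧
      c ∈ mx (F n) (reg F n 𝒪 hF D (l k)).1 ∧ sig (F n) p ⊆ c := by
    intro k
    obtain ⟨c, hc⟩ := mem_iUnion.1 ((D (reg F n 𝒪 hF D (l k))).P_cover (hp k))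
    have h2 := hp (k + 1)
    rw [hreg k] at h2
    obtain ⟨b, hb⟩ := h2.2.1 c hc
    obtain ⟨hcm, hpc⟩ := (D (reg F n 𝒪 hF D (l k))).P_sub c p hc
    obtain ⟨z, hz, hzc, _⟩ := id hcm
    exact ⟨c, b, z, hb, hz, hzc, hcm, hpc⟩
  choose c b z hcb hzR hzc hcm hpc using h1
  obtain ⟨C, hC, hpC⟩ := (reg F n 𝒪 hF D (l 0)).2.2 (hp 0)
  have hzC : ∀ k, z k ∈ C := by
    intro k
    have h2 : C ∈ sig (F n) (z k) := by
      rw [hzc k]
      exact hpc k ⟨hC, hpC⟩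
    exact h2.2
  obtain ⟨q, hqC, hq⟩ := (hK n C hC).1.exists_mapClusterPt (f := atTop) (u := z)
    (by
      rw [le_principal_iff, mem_map]
      exact Filter.Eventually.of_forall hzC)
  rw [mapClusterPt_iff_frequently] at hq
  have hqR : ∀ j, q ∈ (reg F n 𝒪 hF D (l j)).1 := by
    intro j
    by_contra hn
    have h2 := hq _ ((reg F n 𝒪 hF D (l j)).2.1.isOpen_compl.mem_nhds hn)
    obtain ⟨k, hk1, hk2⟩ := (h2.and_eventually (eventually_ge_atTop j)).exists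
    exact hk1 (hmono j k hk2 (hzR k))
  obtain ⟨k, hk⟩ := (hq _ ((isOpen_low (hF n) q).mem_nhds (Subset.rfl : sig (F n) q ⊆ _))).exists
  have hk' : c k ⊆ sig (F n) q := by
    rw [← hzc k]
    exact hk
  have hqc : sig (F n) q = c k := by
    obtain ⟨_, _, _, hmax⟩ := hcm k
    exact hmax q (hqR k) hk'
  have hqcls : q ∈ cls (F n) (reg F n 𝒪 hF D (l k)).1 (c k) := ⟨hqR k, hqc⟩
  have hqP : q ∈ (D (reg F n 𝒪 hF D (l k))).P (c k) := by
    obtain ⟨c', hc'⟩ := mem_iUnion.1 ((D (reg F n 𝒪 hF D (l k))).P_cover (hqR k))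
    obtain ⟨hcm', hqc'⟩ := (D (reg F n 𝒪 hF D (l k))).P_sub c' q hc'
    obtain ⟨z', hz', hzc', _⟩ := hcm'
    obtain ⟨_, _, _, hmax⟩ := hcm k
    have h3 : sig (F n) z' = c k := hmax z' hz' (by rw [hzc', ← hqc]; exact hqc')
    rw [← h3, hzc']
    exact hc'
  have hqV : q ∈ Vk F n 𝒪 D k (reg F n 𝒪 hF D (l k)) (c k) (b k) := by
    refine ⟨⟨(D _).V_cls (c k) (hcm k) (b k) (hB k _ (hcb k)) hqcls, hqP⟩, ?_⟩
    exact mem_iInter₂.2 fun m _ => mem_iUnion₂.2 ⟨q, hqcls, Subset.rfl⟩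
  have h4 := hqR (k + 1)
  rw [hreg k] at h4
  exact h4.2.2 _ (hcb k) hqV

end Tree

end Pool.Agent.H60R3.CPC
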