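import Mathlib
import Pool.Agent.H60R3.CpcTree

/-!
# Metacompact products and closure-preserving covers by compact sets: the leaves
-/

namespace Pool.Agent.H60R3.CPC

open Set Filter Topology

universe u v

variable {Y : Type u} {X : Type v} [TopologicalSpace Y] [TopologicalSpace X]

theorem suffix_step {α : Type*} {l l' : List α} (h : l <:+ l') :
    l = l' ∨ ∃ a, (a :: l) <:+ l' := by
  induction l' with
  | nil => exact Or.inl (List.suffix_nil.1 h)
  | cons b l' ih =>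
    rcases List.suffix_cons_iff.1 h with h1 | h1
    · exact Or.inl h1
    · rcases ih h1 with h2 | ⟨a, h2⟩
      · subst h2
        exact Or.inr ⟨b, List.suffix_rfl⟩
      · exact Or.inr ⟨a, h2.trans (List.suffix_cons b l')⟩

section Tree

variable (F : ℕ → Set (Set Y)) (n : ℕ) (𝒪 : Set (Set (Y × X)))
  (hF : ∀ m, ∀ G ⊆ F m, IsClosed (⋃₀ G))
  (hK : ∀ m, ∀ A ∈ F m, IsCompact A ∧ IsClosed A)
  (D : ∀ R : Reg F n, RegData (F n) 𝒪 R.1)

theorem good_suffix {l l' : List (Lab Y X)} (h : l <:+ l') {p : Y × X}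
    (hg : Good F n 𝒪 hF D l' p) : Good F n 𝒪 hF D l p := by
  induction l' with
  | nil => rw [List.suffix_nil.1 h]; trivial
  | cons b l' ih =>
    rcases List.suffix_cons_iff.1 h with h1 | h1
    · rw [h1]; exact hg
    · exact ih h1 hg.1

theorem reg_suffix {l l' : List (Lab Y X)} (h : l <:+ l') :
    (reg F n 𝒪 hF D l').1 ⊆ (reg F n 𝒪 hF D l).1 := by
  induction l' with
  | nil => rw [List.suffix_nil.1 h]
  | cons b l' ih =>
    rcases List.suffix_cons_iff.1 h with h1 | h1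
    · rw [h1]
    · exact Subset.trans (fun y hy => hy.1) (ih h1)

include hK in
/-- The leaves cover `(⋃₀ F n) × X`. -/
theorem leaf_cover (p : Y × X) (hp : p.1 ∈ ⋃₀ F n) : ∃ l c b, p ∈ leaf F n 𝒪 hF D l c b := by
  by_contra hn
  push Not at hn
  -- the next label
  let st : List (Lab Y X) → Lab Y X := fun l =>
    (act_finite F n 𝒪 D (reg F n 𝒪 hF D l) p).toFinset
  let l : ℕ → List (Lab Y X) := fun k => Nat.rec [] (fun _ l => st l :: l) k
  have hl : ∀ k, l (k + 1) = st (l k) :: l k := fun k => rfl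
  have hinv : ∀ k, p.1 ∈ (reg F n 𝒪 hF D (l k)).1 ∧ Good F n 𝒪 hF D (l k) p := by
    intro k
    induction k with
    | zero => exact ⟨hp, trivial⟩
    | succ k ih =>
      obtain ⟨ih1, ih2⟩ := ih
      rw [hl k]
      refine ⟨⟨ih1, ?_, ?_⟩, ih2, ?_⟩
      · intro c hc
        obtain ⟨hcm, _⟩ := (D (reg F n 𝒪 hF D (l k))).P_sub c _ hc
        have h1 : p.2 ∈ ⋃₀ (D (reg F n 𝒪 hF D (l k))).B c := by
          rw [(D (reg F n 𝒪 hF D (l k))).B_cover c hcm]
          trivial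
        obtain ⟨b, hb, hpb⟩ := h1
        exact ⟨b, (Set.Finite.mem_toFinset _).2 ⟨hc, hb, hpb⟩⟩
      · intro q hq hV
        obtain ⟨hq1, hq2, hq3⟩ := (Set.Finite.mem_toFinset _).1 hq
        exact hn (l k) q.1 q.2 ⟨ih2, hV, hq2, hq3⟩
      · intro q hq
        exact (Set.Finite.mem_toFinset _).1 hq
  refine no_path F n 𝒪 hF hK D (fun k => st (l k)) l rfl hl ?_ p.1 fun k => (hinv k).1
  intro k q hq
  exact ((Set.Finite.mem_toFinset _).1 hq).2.1

include hK in
/-- Each point is in finitely many leaves. -/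
theorem leaf_finite (hcov : ∀ y : Y, ∃ m, y ∈ ⋃₀ F m) (p : Y × X) :
    {t : List (Lab Y X) × Set (Set Y) × Set X | p ∈ leaf F n 𝒪 hF D t.1 t.2.1 t.2.2}.Finite := by
  classical
  obtain ⟨m, C, hC, hpC⟩ := hcov p.1
  -- the nodes with a leaf containing the point
  let L : Set (List (Lab Y X)) := {l | ∃ c b, p ∈ leaf F n 𝒪 hF D l c b}
  have hLfin : L.Finite := by
    by_contra hinf
    have hstep : ∀ l : List (Lab Y X), {l' | l' ∈ L ∧ l <:+ l'}.Infinite →
        ∃ s : Lab Y X, {l' | l' ∈ L ∧ (s :: l) <:+ l'}.Infinite ∧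
          ∀ q ∈ s, q ∈ act F n 𝒪 D (reg F n 𝒪 hF D l) p := by
      intro l hl
      by_contra hn
      push Not at hn
      apply hl
      have hA := act_finite F n 𝒪 D (reg F n 𝒪 hF D l) p
      have h1 : ({l} ∪ ⋃ s ∈ (hA.toFinset.powerset : Set (Lab Y X)),
          {l' | l' ∈ L ∧ (s :: l) <:+ l'}).Finite := by
        refine (Set.finite_singleton l).union (Set.Finite.biUnion (Finset.finite_toSet _) ?_)
        intro s hs
        by_contra hi
        obtain ⟨q, hq, hq'⟩ := hn s hi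
        have h2 := Finset.mem_powerset.1 (Finset.mem_coe.1 hs) hq
        exact hq' ((Set.Finite.mem_toFinset _).1 h2)
      refine h1.subset ?_
      rintro l' ⟨hl', hll'⟩
      rcases suffix_step hll' with h2 | ⟨s, hs⟩
      · exact Or.inl h2.symm
      · refine Or.inr (mem_iUnion₂.2 ⟨s, ?_, hl', hs⟩)
        obtain ⟨c, b, hleaf⟩ := hl'
        have hg := good_suffix F n 𝒪 hF D hs hleaf.1
        rw [Finset.mem_coe, Finset.mem_powerset]
        intro q hq
        exact (Set.Finite.mem_toFinset _).2 (hg.2 q hq)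
    choose! st hst1 hst2 using hstep
    let l : ℕ → List (Lab Y X) := fun k => Nat.rec [] (fun _ l => st l :: l) k
    have hl : ∀ k, l (k + 1) = st (l k) :: l k := fun k => rfl
    have hI : ∀ k, {l' | l' ∈ L ∧ l k <:+ l'}.Infinite := by
      intro k
      induction k with
      | zero =>
        intro h
        apply hinf
        refine h.subset fun l' hl' => ⟨hl', ?_⟩
        exact List.nil_suffix
      | succ k ih =>
        rw [hl k]
        exact hst1 _ ih
    have hlen : ∀ k, (l k).length = k := by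
      intro k
      induction k with
      | zero => rfl
      | succ k ih => rw [hl, List.length_cons, ih]
    have hsuf : ∀ j k, j ≤ k → l j <:+ l k := by
      intro j k hjk
      induction k, hjk using Nat.le_induction with
      | base => exact List.suffix_rfl
      | succ k _ ih =>
        rw [hl k]
        exact ih.trans (List.suffix_cons _ _)
    -- the compact set `C` meets all the regions
    have hne : ∀ k, (C ∩ (reg F n 𝒪 hF D (l k)).1).Nonempty := by
      intro k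
      obtain ⟨l', ⟨c, b, hleaf⟩, hl'⟩ := (hI (max k m)).nonempty
      have h1 : m ≤ l'.length := by
        have := hl'.length_le
        rw [hlen] at this
        exact (le_max_right k m).trans this
      have h2 := hleaf.2.1.2
      have h3 := mem_iInter₂.1 h2 m (Finset.mem_range.2 (Nat.lt_succ_of_le h1))
      obtain ⟨w, hw, hpw⟩ := mem_iUnion₂.1 h3
      refine ⟨w, (hpw ⟨hC, hpC⟩ : C ∈ sig (F m) w).2, ?_⟩
      exact reg_suffix F n 𝒪 hF D ((hsuf k _ (le_max_left k m)).trans hl') hw.1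
    obtain ⟨y, hy⟩ := IsCompact.nonempty_iInter_of_sequence_nonempty_isCompact_isClosed
      (fun k => C ∩ (reg F n 𝒪 hF D (l k)).1)
      (fun k => Set.inter_subset_inter_right _
        (reg_suffix F n 𝒪 hF D (hsuf k (k + 1) (Nat.le_succ k))))
      hne ((hK m C hC).1.inter_right (reg F n 𝒪 hF D (l 0)).2.1)
      (fun k => (hK m C hC).2.inter (reg F n 𝒪 hF D (l k)).2.1)
    refine no_path F n 𝒪 hF hK D (fun k => st (l k)) l rfl hl ?_ y
      fun k => (mem_iInter.1 hy k).2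
    intro k q hq
    exact (hst2 (l k) (hI k) q hq).2.1
  have h1 : (⋃ l ∈ L, (fun q : Set (Set Y) × Set X => (l, q)) ''
      act F n 𝒪 D (reg F n 𝒪 hF D l) p).Finite :=
    hLfin.biUnion fun l _ => (act_finite F n 𝒪 D _ p).image _
  refine h1.subset ?_
  rintro ⟨l, c, b⟩ ht
  refine mem_iUnion₂.2 ⟨l, ⟨c, b, ht⟩, (c, b), ?_, rfl⟩
  exact ⟨ht.2.1.1.2, ht.2.2.1, ht.2.2.2⟩

end Tree

/-- The theorem: the product of a metacompact space which has a σ-closure-preserving cover by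
compact closed sets with a metacompact space is metacompact. -/
theorem metacompact_prod (hY : Metacompact Y) (hX : Metacompact X)
    (F : ℕ → Set (Set Y)) (hK : ∀ n, ∀ A ∈ F n, IsCompact A ∧ IsClosed A)
    (hF : ∀ n, ∀ G ⊆ F n, IsClosed (⋃₀ G)) (hcov : (⋃ n, ⋃₀ F n) = Set.univ) :
    Metacompact (Y × X) := by
  classical
  intro 𝒪 hO hc
  have hcov' : ∀ y : Y, ∃ m, y ∈ ⋃₀ F m := by
    intro y
    have : y ∈ ⋃ n, ⋃₀ F n := by rw [hcov]; trivial
    exact mem_iUnion.1 this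
  have hD : ∀ (n : ℕ) (R : Reg F n), Nonempty (RegData (F n) 𝒪 R.1) := fun n R =>
    exists_regData hY hX (hF n) (hK n) 𝒪 hO hc R.2.1 R.2.2
  let D : ∀ (n : ℕ) (R : Reg F n), RegData (F n) 𝒪 R.1 := fun n R => (hD n R).some
  -- the closed sets to be removed
  let E : ℕ → Set Y := fun n => ⋃ m ∈ Finset.range n, ⋃₀ F m
  have hE : ∀ n, IsClosed (E n) := fun n =>
    isClosed_biUnion_finset fun m _ => hF m _ Subset.rfl
  -- the members of the refinement
  let W : (Σ _ : ℕ, List (Lab Y X) × Set (Set Y) × Set X) → Set (Y × X) → Set (Y × X) :=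
    fun t O => (leaf F t.1 𝒪 hF (D t.1) t.2.1 t.2.2.1 t.2.2.2 \ (E t.1 ×ˢ univ)) ∩ O
  let G : (Σ _ : ℕ, List (Lab Y X) × Set (Set Y) × Set X) → Set (Set (Y × X)) :=
    fun t => (D t.1 (reg F t.1 𝒪 hF (D t.1) t.2.1)).G t.2.2.1 t.2.2.2
  refine ⟨{V | ∃ t, ∃ O ∈ G t, V = W t O}, ?_, ?_, ?_, ?_⟩
  · rintro V ⟨t, O, hOG, rfl⟩
    refine ((isOpen_leaf F t.1 𝒪 hF (D t.1) _ _ _).sdiff ((hE _).prod isClosed_univ)).inter ?_
    exact hO O ((D t.1 _).G_sub _ _ hOG)
  · rw [Set.eq_univ_iff_forall]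
    intro p
    have hex := hcov' p.1
    obtain ⟨l, c, b, hp⟩ := leaf_cover F (Nat.find hex) 𝒪 hF hK (D _) p (Nat.find_spec hex)
    have h1 : p ∈ ⋃₀ G ⟨Nat.find hex, l, c, b⟩ :=
      (D (Nat.find hex) (reg F _ 𝒪 hF (D _) l)).G_cover c b ⟨hp.2.1.1.1, hp.2.2.2⟩
    obtain ⟨O, hOG, hpO⟩ := h1
    refine ⟨W ⟨Nat.find hex, l, c, b⟩ O, ⟨_, O, hOG, rfl⟩, ⟨hp, ?_⟩, hpO⟩
    rintro ⟨h2, _⟩
    obtain ⟨m, hm, hpm⟩ := mem_iUnion₂.1 h2
    exact Nat.find_min hex (Finset.mem_range.1 hm) hpm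
  · rintro V ⟨t, O, hOG, rfl⟩
    exact ⟨O, (D t.1 _).G_sub _ _ hOG, Set.inter_subset_right⟩
  · intro p
    obtain ⟨m, hm⟩ := hcov' p.1
    have h1 : (⋃ n ∈ Finset.range (m + 1), ⋃ t ∈ {t : List (Lab Y X) × Set (Set Y) × Set X |
        p ∈ leaf F n 𝒪 hF (D n) t.1 t.2.1 t.2.2}, (fun O => W ⟨n, t⟩ O) '' G ⟨n, t⟩).Finite := by
      refine Set.Finite.biUnion (Finset.finite_toSet _) fun n _ => ?_
      refine Set.Finite.biUnion (leaf_finite F n 𝒪 hF hK (D n) hcov' p) fun t _ => ?_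
      exact ((D n _).G_fin _ _).image _
    refine h1.subset ?_
    rintro V ⟨⟨⟨n, t⟩, O, hOG, rfl⟩, hpV⟩
    refine mem_iUnion₂.2 ⟨n, ?_, mem_iUnion₂.2 ⟨t, hpV.1.1, O, hOG, rfl⟩⟩
    rw [Finset.mem_range]
    by_contra hn
    apply hpV.1.2
    have hmn : m < n := by omega
    exact ⟨mem_iUnion₂.2 ⟨m, Finset.mem_range.2 hmn, hm⟩, trivial⟩

end Pool.Agent.H60R3.CPC
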