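import Mathlib

/-!
# Group topologies generated by sets of convergent sequences

For a group `G`, a Hausdorff group topology `τ` on `G` and a set `S` of sequences in `G`,
`Generates τ S` says that `S` is a `T_s`-set and `τ = τ_S`: all the sequences of `S` converge to `1`
in `τ`, and `τ` is the finest Hausdorff group topology with this property. `rs τ` is the least
cardinality of such an `S`.
-/

namespace Pool.Agent.H60R3

open Filter

/-- `τ = τ_S`: the sequences of `S` converge to `1` in `τ`, and `τ` is finer than every Hausdorff
group topology in which the sequences of `S` converge to `1`. (`τ` itself is meant to be a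
Hausdorff group topology. In Mathlib, `τ ≤ σ` says that `τ` is finer than `σ`.) -/
def Generates {G : Type*} [Group G] (τ : TopologicalSpace G) (S : Set (ℕ → G)) : Prop :=
  (∀ u ∈ S, Tendsto u atTop (@nhds G τ 1)) ∧
    ∀ σ : TopologicalSpace G, @IsTopologicalGroup G σ _ → @T2Space G σ →
      (∀ u ∈ S, Tendsto u atTop (@nhds G σ 1)) → τ ≤ σ

/-- The least cardinality of a set of sequences which generates the topology `τ`. -/
noncomputable def rs {G : Type*} [Group G] (τ : TopologicalSpace G) : Cardinal :=
  sInf {κ : Cardinal | ∃ S : Set (ℕ → G), Generates τ S ∧ Cardinal.mk S = κ}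

end Pool.Agent.H60R3
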