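import Mathlib

/-!
# Bases of sub-infinite rank and metacompactness

Let `𝒥` be a family of subsets of `X` such that each infinite subfamily with a common point has two
distinct comparable members. For a set `W`, a member `A ⊆ W` of `𝒥` is `Good` if the family of
the members of `𝒥` between `A` and `W` is directed. Each member of `𝒥` below `W` is below a good one,
and the unions of the directed families of good members form a point-finite family, the children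
of `W`. Starting with the whole space, and removing one point from each child which is not contained
in a member of the given cover, one gets a tree. An infinite path in the tree, all members of
which contain a given point, gives an infinite antichain.
-/

namespace Pool.Agent.H60R3.SubInf

open Set

/-- Each infinite subfamily with a common point has two distinct comparable members. -/
def SubInfinite {X : Type*} (𝒥 : Set (Set X)) : Prop :=
  ∀ L : Set (Set X), L ⊆ 𝒥 → L.Infinite → (⋂₀ L).Nonempty → ∃ A ∈ L, ∃ C ∈ L, A ≠ C ∧ A ⊆ C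

variable {X : Type*}

/-- The members of `𝒥` between `A` and `W`. -/
def up (𝒥 : Set (Set X)) (W A : Set X) : Set (Set X) := {C | C ∈ 𝒥 ∧ A ⊆ C ∧ C ⊆ W}

/-- `A` is a member of `𝒥` such that the members of `𝒥` between `A` and `W` are directed. -/
def Good (𝒥 : Set (Set X)) (W A : Set X) : Prop :=
  (A ∈ 𝒥 ∧ A ⊆ W) ∧ ∀ u ∈ up 𝒥 W A, ∀ v ∈ up 𝒥 W A, ∃ w ∈ up 𝒥 W A, u ⊆ w ∧ v ⊆ w

/-- The children of `W`. -/
def children (𝒥 : Set (Set X)) (W : Set X) : Set (Set X) :=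
  {C | ∃ A, Good 𝒥 W A ∧ C = ⋃₀ up 𝒥 W A}

theorem exists_good {𝒥 : Set (Set X)} (H : SubInfinite 𝒥) {W A : Set X} {x : X} (hx : x ∈ A)
    (hA : A ∈ 𝒥) (hAW : A ⊆ W) : ∃ A', Good 𝒥 W A' ∧ A ⊆ A' := by
  by_contra hn
  push Not at hn
  have h1 : ∀ s : {v : Set X // v ∈ up 𝒥 W A}, ∃ p : {v : Set X // v ∈ up 𝒥 W A} ×
      {v : Set X // v ∈ up 𝒥 W A}, s.1 ⊆ p.1.1 ∧ s.1 ⊆ p.2.1 ∧
      ∀ w ∈ 𝒥, w ⊆ W → ¬ (p.1.1 ⊆ w ∧ p.2.1 ⊆ w) := by
    rintro ⟨s, hs1, hs2, hs3⟩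
    have h2 : ¬ Good 𝒥 W s := fun h => hn s h hs2
    unfold Good at h2
    push Not at h2
    obtain ⟨u, hu, v, hv, huv⟩ := h2 ⟨hs1, hs3⟩
    refine ⟨(⟨u, hu.1, hs2.trans hu.2.1, hu.2.2⟩, ⟨v, hv.1, hs2.trans hv.2.1, hv.2.2⟩),
      hu.2.1, hv.2.1, ?_⟩
    rintro w hw hwW ⟨h3, h4⟩
    exact huv w ⟨hw, hu.2.1.trans h3, hwW⟩ h3 h4
  choose f hf1 hf2 hf3 using h1
  let v : ℕ → {v : Set X // v ∈ up 𝒥 W A} := fun n =>
    Nat.rec ⟨A, hA, Subset.rfl, hAW⟩ (fun _ s => (f s).2) n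
  have hv : ∀ n, v (n + 1) = (f (v n)).2 := fun n => rfl
  have hmono : ∀ i j, i ≤ j → (v i).1 ⊆ (v j).1 := by
    intro i j hij
    induction j, hij using Nat.le_induction with
    | base => exact Subset.rfl
    | succ j _ ih =>
      rw [hv j]
      exact ih.trans (hf2 (v j))
  let u : ℕ → Set X := fun n => (f (v n)).1.1
  have hu : ∀ n, u n ∈ up 𝒥 W A := fun n => (f (v n)).1.2
  have hinc : ∀ i j, i < j → ∀ w ∈ 𝒥, w ⊆ W → ¬ (u i ⊆ w ∧ u j ⊆ w) := by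
    rintro i j hij w hw hwW ⟨h2, h3⟩
    refine hf3 (v i) w hw hwW ⟨h2, ?_⟩
    have h4 : ((f (v i)).2).1 ⊆ (v j).1 := by
      have := hmono (i + 1) j hij
      rwa [hv i] at this
    exact (h4.trans (hf1 (v j))).trans h3
  have hne : ∀ i j, i ≠ j → ¬ u i ⊆ u j := by
    intro i j hij hs
    rcases lt_or_gt_of_ne hij with h | h
    · exact hinc i j h (u j) (hu j).1 (hu j).2.2 ⟨hs, Subset.rfl⟩
    · exact hinc j i h (u j) (hu j).1 (hu j).2.2 ⟨Subset.rfl, hs⟩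
  have hinj : Function.Injective u := by
    intro i j hij
    by_contra hne'
    exact hne i j hne' hij.subset
  obtain ⟨_, ⟨i, rfl⟩, _, ⟨j, rfl⟩, hij, hsub⟩ := H (Set.range u)
    (by rintro _ ⟨n, rfl⟩; exact (hu n).1) (Set.infinite_range_of_injective hinj)
    ⟨x, by rintro _ ⟨n, rfl⟩; exact (hu n).2.1 hx⟩
  exact hne i j (fun h => hij (by rw [h])) hsub

theorem good_up {𝒥 : Set (Set X)} {W A A' : Set X} (hA : Good 𝒥 W A) (hA' : A' ∈ up 𝒥 W A) :
    Good 𝒥 W A' ∧ ⋃₀ up 𝒥 W A' = ⋃₀ up 𝒥 W A := by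
  refine ⟨⟨⟨hA'.1, hA'.2.2⟩, ?_⟩, ?_⟩
  · rintro u ⟨hu1, hu2, hu3⟩ v ⟨hv1, hv2, hv3⟩
    obtain ⟨w, ⟨hw1, hw2, hw3⟩, hw4, hw5⟩ := hA.2 u ⟨hu1, hA'.2.1.trans hu2, hu3⟩ v
      ⟨hv1, hA'.2.1.trans hv2, hv3⟩
    exact ⟨w, ⟨hw1, hu2.trans hw4, hw3⟩, hw4, hw5⟩
  · apply Subset.antisymm
    · rintro y ⟨C, ⟨h1, h2, h3⟩, hy⟩
      exact ⟨C, ⟨h1, hA'.2.1.trans h2, h3⟩, hy⟩
    · rintro y ⟨C, hC, hy⟩
      obtain ⟨w, ⟨hw1, hw2, hw3⟩, hw4, hw5⟩ := hA.2 C hC A' hA'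
      exact ⟨w, ⟨hw1, hw5, hw3⟩, hw4 hy⟩

theorem children_subset {𝒥 : Set (Set X)} {W C : Set X} (hC : C ∈ children 𝒥 W) : C ⊆ W := by
  obtain ⟨A, _, rfl⟩ := hC
  rintro y ⟨D, hD, hy⟩
  exact hD.2.2 hy

theorem children_cover {𝒥 : Set (Set X)} (H : SubInfinite 𝒥) {W A : Set X} {x : X} (hx : x ∈ A)
    (hA : A ∈ 𝒥) (hAW : A ⊆ W) : ∃ C ∈ children 𝒥 W, x ∈ C := by
  obtain ⟨A', hA', hAA'⟩ := exists_good H hx hA hAW
  exact ⟨_, ⟨A', hA', rfl⟩, A', ⟨hA'.1.1, Subset.rfl, hA'.1.2⟩, hAA' hx⟩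

theorem children_finite {𝒥 : Set (Set X)} (H : SubInfinite 𝒥) (W : Set X) (x : X) :
    {C | C ∈ children 𝒥 W ∧ x ∈ C}.Finite := by
  by_contra hinf
  have h1 : ∀ C ∈ {C | C ∈ children 𝒥 W ∧ x ∈ C}, ∃ A, Good 𝒥 W A ∧ C = ⋃₀ up 𝒥 W A ∧ x ∈ A := by
    rintro C ⟨⟨A, hA, rfl⟩, D, hD, hx⟩
    obtain ⟨h2, h3⟩ := good_up hA hD
    exact ⟨D, h2, h3.symm, hx⟩
  choose! g hg1 hg2 hg3 using h1
  have hinj : Set.InjOn g {C | C ∈ children 𝒥 W ∧ x ∈ C} := by
    intro C hC C' hC' h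
    rw [hg2 C hC, hg2 C' hC', h]
  obtain ⟨_, ⟨C, hC, rfl⟩, _, ⟨C', hC', rfl⟩, hne, hsub⟩ := H (g '' {C | C ∈ children 𝒥 W ∧ x ∈ C})
    (by rintro _ ⟨C, hC, rfl⟩; exact (hg1 C hC).1.1) (Set.Infinite.image hinj hinf)
    ⟨x, by rintro _ ⟨C, hC, rfl⟩; exact hg3 C hC⟩
  have h4 := (good_up (hg1 C hC) ⟨(hg1 C' hC').1.1, hsub, (hg1 C' hC').1.2⟩).2
  rw [← hg2 C hC, ← hg2 C' hC'] at h4
  exact hne (by rw [h4])

theorem children_directed {𝒥 : Set (Set X)} {W C : Set X} (hC : C ∈ children 𝒥 W)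
    (F : Finset X) (hF : ∀ y ∈ F, y ∈ C) : ∃ A ∈ 𝒥, A ⊆ C ∧ ∀ y ∈ F, y ∈ A := by
  classical
  obtain ⟨A, hA, rfl⟩ := hC
  suffices h : ∃ D ∈ up 𝒥 W A, ∀ y ∈ F, y ∈ D by
    obtain ⟨D, hD, hy⟩ := h
    exact ⟨D, hD.1, fun z hz => ⟨D, hD, hz⟩, hy⟩
  induction F using Finset.induction_on with
  | empty => exact ⟨A, ⟨hA.1.1, Subset.rfl, hA.1.2⟩, by simp⟩
  | insert a F _ ih =>
    obtain ⟨D, hD, hy⟩ := ih fun y hy => hF y (Finset.mem_insert_of_mem hy)
    obtain ⟨E, hE, haE⟩ := hF a (Finset.mem_insert_self a F)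
    obtain ⟨w, hw, h1, h2⟩ := hA.2 D hD E hE
    refine ⟨w, hw, fun y hy' => ?_⟩
    rcases Finset.mem_insert.1 hy' with rfl | h
    · exact h2 haE
    · exact h1 (hy y h)

/-- The key point: there is no infinite path with a common point. -/
theorem no_path {𝒥 U : Set (Set X)} (H : SubInfinite 𝒥) (hJU : ∀ A ∈ 𝒥, ∃ u ∈ U, A ⊆ u)
    (pt : Set X → X) (W C : ℕ → Set X) (hC : ∀ k, C k ∈ children 𝒥 (W k))
    (hW : ∀ k, W (k + 1) = C k \ {pt (C k)}) (hpt : ∀ k, pt (C k) ∈ C k)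
    (hb : ∀ k, ∀ u ∈ U, ¬ C k ⊆ u) (x : X) (hx : ∀ k, x ∈ C k) : False := by
  classical
  have hstep : ∀ k, C (k + 1) ⊆ C k \ {pt (C k)} := by
    intro k
    rw [← hW k]
    exact children_subset (hC (k + 1))
  have hmono : ∀ i j, i ≤ j → C j ⊆ C i := by
    intro i j hij
    induction j, hij using Nat.le_induction with
    | base => exact Subset.rfl
    | succ j _ ih => exact ((hstep j).trans sdiff_subset).trans ih
  obtain ⟨f, hf1, hf2⟩ := exists_seq_of_forall_finset_exists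
    (P := fun q : ℕ × Set X => q.2 ∈ 𝒥 ∧ q.2 ⊆ C q.1 ∧ x ∈ q.2 ∧ pt (C q.1) ∈ q.2)
    (r := fun q q' => q.1 < q'.1 ∧ ¬ q'.2 ⊆ q.2) (by
      intro s hs
      -- the level
      let k : ℕ := s.sup (fun q => q.1) + 1
      have hz : ∀ q ∈ s, ∃ z, z ∈ C k ∧ z ∉ q.2 := by
        intro q hq
        obtain ⟨u, hu, hqu⟩ := hJU q.2 (hs q hq).1
        obtain ⟨z, hz, hzu⟩ := Set.not_subset.1 (hb k u hu)
        exact ⟨z, hz, fun h => hzu (hqu h)⟩
      have : Nonempty X := ⟨x⟩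
      choose! z hz1 hz2 using hz
      obtain ⟨A, hA, hAC, hAF⟩ := children_directed (hC k)
        (insert x (insert (pt (C k)) (s.image z))) (by
          intro y hy
          rcases Finset.mem_insert.1 hy with rfl | hy
          · exact hx k
          rcases Finset.mem_insert.1 hy with rfl | hy
          · exact hpt k
          obtain ⟨q, hq, rfl⟩ := Finset.mem_image.1 hy
          exact hz1 q hq)
      refine ⟨(k, A), ⟨hA, hAC, hAF x (Finset.mem_insert_self _ _),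
        hAF _ (Finset.mem_insert_of_mem (Finset.mem_insert_self _ _))⟩, ?_⟩
      intro q hq
      refine ⟨Nat.lt_succ_of_le (Finset.le_sup (f := fun q : ℕ × Set X => q.1) hq), ?_⟩
      intro hsub
      exact hz2 q hq (hsub (hAF _ (Finset.mem_insert_of_mem (Finset.mem_insert_of_mem
        (Finset.mem_image_of_mem z hq))))))
  have h1 : ∀ m n, m < n → ¬ (f m).2 ⊆ (f n).2 := by
    intro m n hmn hsub
    have h2 : pt (C (f m).1) ∈ (f n).2 := hsub (hf1 m).2.2.2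
    have h3 : pt (C (f m).1) ∈ C ((f m).1 + 1) :=
      hmono _ _ (hf2 m n hmn).1 ((hf1 n).2.1 h2)
    exact (hstep _ h3).2 rfl
  have h2 : ∀ m n, m ≠ n → ¬ (f m).2 ⊆ (f n).2 := by
    intro m n hmn
    rcases lt_or_gt_of_ne hmn with h | h
    · exact h1 m n h
    · exact (hf2 n m h).2
  have hinj : Function.Injective fun n => (f n).2 := by
    intro m n h
    by_contra hne
    exact h2 m n hne (Eq.subset h)
  obtain ⟨_, ⟨i, rfl⟩, _, ⟨j, rfl⟩, hij, hsub⟩ := H (Set.range fun n => (f n).2)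
    (by rintro _ ⟨n, rfl⟩; exact (hf1 n).1) (Set.infinite_range_of_injective hinj)
    ⟨x, by rintro _ ⟨n, rfl⟩; exact (hf1 n).2.2.1⟩
  exact h2 i j (fun h => hij (by rw [h])) hsub

/-- A `T₁` space with a base of sub-infinite rank is metacompact. -/
theorem metacompact [TopologicalSpace X] [T1Space X] (B : Set (Set X))
    (hB : TopologicalSpace.IsTopologicalBasis B) (H : SubInfinite B)
    (U : Set (Set X)) (hU : ∀ u ∈ U, IsOpen u) (hUc : ⋃₀ U = Set.univ) :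
    ∃ V : Set (Set X), (∀ v ∈ V, IsOpen v) ∧ ⋃₀ V = Set.univ ∧
      (∀ v ∈ V, ∃ u ∈ U, v ⊆ u) ∧ ∀ x : X, {v ∈ V | x ∈ v}.Finite := by
  classical
  rcases isEmpty_or_nonempty X with hX | hX
  · exact ⟨∅, by simp, by rw [Set.sUnion_empty]; exact (Set.univ_eq_empty_iff.2 hX).symm,
      by simp, fun x => hX.elim x⟩
  let 𝒥 : Set (Set X) := {A | A ∈ B ∧ ∃ u ∈ U, A ⊆ u}
  have hJ : SubInfinite 𝒥 := fun L hL => H L (hL.trans fun A hA => hA.1)
  have hJU : ∀ A ∈ 𝒥, ∃ u ∈ U, A ⊆ u := fun A hA => hA.2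
  have hJb : ∀ (W : Set X), IsOpen W → ∀ x ∈ W, ∃ A ∈ 𝒥, x ∈ A ∧ A ⊆ W := by
    intro W hW x hx
    have h1 : x ∈ ⋃₀ U := by rw [hUc]; trivial
    obtain ⟨u, hu, hxu⟩ := h1
    obtain ⟨A, hA, hxA, hAs⟩ := hB.exists_subset_of_mem_open (show x ∈ W ∩ u from ⟨hx, hxu⟩)
      (hW.inter (hU u hu))
    exact ⟨A, ⟨hA, u, hu, hAs.trans Set.inter_subset_right⟩, hxA, hAs.trans Set.inter_subset_left⟩
  have hopen : ∀ W C, C ∈ children 𝒥 W → IsOpen C := by
    rintro W C ⟨A, _, rfl⟩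
    exact isOpen_sUnion fun D hD => hB.isOpen hD.1.1
  let pt : Set X → X := fun C => Classical.epsilon fun y => y ∈ C
  have hpt : ∀ C : Set X, (∀ u ∈ U, ¬ C ⊆ u) → pt C ∈ C := by
    intro C hC
    have h1 : C.Nonempty := by
      by_contra hn
      rw [Set.not_nonempty_iff_eq_empty] at hn
      obtain ⟨x⟩ := hX
      have h2 : x ∈ ⋃₀ U := by rw [hUc]; trivial
      obtain ⟨u, hu, _⟩ := h2
      exact hC u hu (by rw [hn]; exact Set.empty_subset _)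
    exact Classical.epsilon_spec h1
  -- the tree
  let St : Set X → Set X → Prop := fun C C' => (∀ u ∈ U, ¬ C ⊆ u) ∧
    C' ∈ children 𝒥 (C \ {pt C})
  have hSt : ∀ C C', St C C' → C' ⊆ C := fun C C' h =>
    (children_subset h.2).trans Set.sdiff_subset
  have hSts : ∀ C C', Relation.ReflTransGen St C C' → C' ⊆ C := by
    intro C C' h
    induction h with
    | refl => exact Subset.rfl
    | tail _ h2 ih => exact (hSt _ _ h2).trans ih
  let Node : Set X → Prop := fun C => ∃ C₀ ∈ children 𝒥 univ, Relation.ReflTransGen St C₀ C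
  have hNode : ∀ C, Node C → ∃ W, C ∈ children 𝒥 W := by
    rintro C ⟨C₀, hC₀, h⟩
    rcases Relation.ReflTransGen.cases_tail h with rfl | ⟨C', _, h'⟩
    · exact ⟨_, hC₀⟩
    · exact ⟨_, h'.2⟩
  have hNodeOpen : ∀ C, Node C → IsOpen C := by
    intro C hC
    obtain ⟨W, hW⟩ := hNode C hC
    exact hopen W C hW
  -- finitely many nodes contain a given point
  have hfin : ∀ x, {C | Node C ∧ x ∈ C}.Finite := by
    intro x
    have hdesc : ∀ C W, C ∈ children 𝒥 W →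
        {C' | Relation.ReflTransGen St C C' ∧ x ∈ C'}.Finite := by
      by_contra hn
      push Not at hn
      obtain ⟨C₀, W₀, hC₀, hinf₀⟩ := hn
      have hnext : ∀ C : {C : Set X // {C' | Relation.ReflTransGen St C C' ∧ x ∈ C'}.Infinite},
          ∃ C' : {C : Set X // {C' | Relation.ReflTransGen St C C' ∧ x ∈ C'}.Infinite},
            St C.1 C'.1 := by
        rintro ⟨C, hC⟩
        by_contra hn
        push Not at hn
        apply hC
        have h1 : ({C} ∪ ⋃ C' ∈ {C' | C' ∈ children 𝒥 (C \ {pt C}) ∧ x ∈ C'},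
            {C'' | St C C' ∧ Relation.ReflTransGen St C' C'' ∧ x ∈ C''}).Finite := by
          refine (Set.finite_singleton C).union
            (Set.Finite.biUnion (children_finite hJ _ x) ?_)
          intro C' hC'
          by_cases hs : St C C'
          · by_contra hi
            refine hn ⟨C', ?_⟩ hs
            intro hf
            exact hi (hf.subset fun C'' hC'' => hC''.2)
          · convert Set.finite_empty
            ext C''
            exact ⟨fun h => hs h.1, fun h => h.elim⟩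
        refine h1.subset ?_
        rintro C'' ⟨h2, hx⟩
        rcases Relation.ReflTransGen.cases_head h2 with rfl | ⟨C', h3, h4⟩
        · exact Or.inl rfl
        · exact Or.inr (mem_iUnion₂.2 ⟨C', ⟨h3.2, hSts _ _ h4 hx⟩, h3, h4, hx⟩)
      choose nx hnx using hnext
      let c : ℕ → {C : Set X // {C' | Relation.ReflTransGen St C C' ∧ x ∈ C'}.Infinite} :=
        fun n => Nat.rec ⟨C₀, hinf₀⟩ (fun _ C => nx C) n
      have hc : ∀ n, c (n + 1) = nx (c n) := fun n => rfl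
      have hcs : ∀ n, St (c n).1 (c (n + 1)).1 := fun n => by rw [hc n]; exact hnx (c n)
      let W : ℕ → Set X := fun n => Nat.casesOn n W₀ fun m => (c m).1 \ {pt (c m).1}
      refine no_path hJ hJU pt W (fun n => (c n).1) ?_ (fun n => rfl)
        (fun n => hpt _ (hcs n).1) (fun n => (hcs n).1) x ?_
      · intro n
        cases n with
        | zero => exact hC₀
        | succ m => exact (hcs m).2
      · intro n
        obtain ⟨C', h1, h2⟩ := (c n).2.nonempty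
        exact hSts _ _ h1 h2
    have h1 : (⋃ C₀ ∈ {C | C ∈ children 𝒥 univ ∧ x ∈ C},
        {C' | Relation.ReflTransGen St C₀ C' ∧ x ∈ C'}).Finite :=
      Set.Finite.biUnion (children_finite hJ _ x) fun C hC => hdesc C _ hC.1
    refine h1.subset ?_
    rintro C ⟨⟨C₀, hC₀, h2⟩, hx⟩
    exact mem_iUnion₂.2 ⟨C₀, ⟨hC₀, hSts _ _ h2 hx⟩, h2, hx⟩
  -- the sets which cover the removed points
  have hlf : ∀ C, Node C → (∀ u ∈ U, ¬ C ⊆ u) → ∃ A ∈ 𝒥, pt C ∈ A ∧ A ⊆ C := by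
    intro C hC hCb
    exact hJb C (hNodeOpen C hC) _ (hpt C hCb)
  choose! lf hlf1 hlf2 hlf3 using hlf
  refine ⟨{C | Node C ∧ ∃ u ∈ U, C ⊆ u} ∪ lf '' {C | Node C ∧ ∀ u ∈ U, ¬ C ⊆ u}, ?_, ?_, ?_, ?_⟩
  · rintro v (⟨hC, _⟩ | ⟨C, ⟨hC, hCb⟩, rfl⟩)
    · exact hNodeOpen v hC
    · exact hB.isOpen (hlf1 C hC hCb).1
  · rw [Set.eq_univ_iff_forall]
    intro x
    by_contra hn
    have hn1 : ∀ C, Node C → x ∈ C → ∀ u ∈ U, ¬ C ⊆ u := by
      intro C hC hx u hu hCu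
      exact hn ⟨C, Or.inl ⟨hC, u, hu, hCu⟩, hx⟩
    have hn2 : ∀ C, Node C → x ∈ C → x ≠ pt C := by
      intro C hC hx h
      have hCb := hn1 C hC hx
      exact hn ⟨lf C, Or.inr ⟨C, ⟨hC, hCb⟩, rfl⟩, by rw [h]; exact hlf2 C hC hCb⟩
    obtain ⟨A₀, hA₀, hxA₀, _⟩ := hJb univ isOpen_univ x trivial
    obtain ⟨C₀, hC₀, hxC₀⟩ := children_cover hJ hxA₀ hA₀ (Set.subset_univ _)
    have hnext : ∀ C : {C : Set X // Node C ∧ x ∈ C}, ∃ C' : {C : Set X // Node C ∧ x ∈ C},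
        St C.1 C'.1 := by
      rintro ⟨C, hC, hx⟩
      have h1 : x ∈ C \ {pt C} := ⟨hx, hn2 C hC hx⟩
      obtain ⟨A, hA, hxA, hAC⟩ := hJb _ ((hNodeOpen C hC).sdiff isClosed_singleton) x h1
      obtain ⟨C', hC', hxC'⟩ := children_cover hJ hxA hA hAC
      have h2 : St C C' := ⟨hn1 C hC hx, hC'⟩
      obtain ⟨C₁, hC₁, h3⟩ := hC
      exact ⟨⟨C', ⟨C₁, hC₁, h3.tail h2⟩, hxC'⟩, h2⟩
    choose nx hnx using hnext
    let c : ℕ → {C : Set X // Node C ∧ x ∈ C} :=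
      fun n => Nat.rec ⟨C₀, ⟨C₀, hC₀, Relation.ReflTransGen.refl⟩, hxC₀⟩ (fun _ C => nx C) n
    have hc : ∀ n, c (n + 1) = nx (c n) := fun n => rfl
    have hcs : ∀ n, St (c n).1 (c (n + 1)).1 := fun n => by rw [hc n]; exact hnx (c n)
    let W : ℕ → Set X := fun n => Nat.casesOn n univ fun m => (c m).1 \ {pt (c m).1}
    refine no_path hJ hJU pt W (fun n => (c n).1) ?_ (fun n => rfl)
      (fun n => hpt _ (hcs n).1) (fun n => (hcs n).1) x fun n => (c n).2.2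
    intro n
    cases n with
    | zero => exact hC₀
    | succ m => exact (hcs m).2
  · rintro v (⟨_, hb⟩ | ⟨C, ⟨hC, hCb⟩, rfl⟩)
    · exact hb
    · exact (hlf1 C hC hCb).2
  · intro x
    refine ((hfin x).union ((hfin x).image lf)).subset ?_
    rintro v ⟨⟨hC, _⟩ | ⟨C, ⟨hC, hCb⟩, rfl⟩, hx⟩
    · exact Or.inl ⟨hC, hx⟩
    · exact Or.inr ⟨C, ⟨hC, hlf3 C hC hCb hx⟩, rfl⟩

end Pool.Agent.H60R3.SubInf
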