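import Mathlib

/-!
# Tails of involutions of `ℕ` are simultaneously conjugate to the tails of a fixed involution
-/

namespace Pool.Agent.H60R3.Sym

open Function Filter Topology

/-- `w j` swaps `4 i` and `4 i + 1` for all `i ≥ j` and fixes all the other numbers. -/
def w (j z : ℕ) : ℕ :=
  if 4 * j ≤ z then (if z % 4 = 0 then z + 1 else if z % 4 = 1 then z - 1 else z) else z

theorem w_invol (j : ℕ) : Involutive (w j) := by
  intro z
  unfold w
  split_ifs <;> omega

/-- The involution which swaps `4 i` and `4 i + 1` for all `i ≥ j`. -/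
def v (j : ℕ) : Equiv.Perm ℕ := (w_invol j).toPerm

theorem v_apply (j z : ℕ) : v j z = w j z := rfl

/-- `a` restricted to its pairs with both elements at least `m`. -/
def cutf (a : ℕ → ℕ) (m z : ℕ) : ℕ := if m ≤ z ∧ m ≤ a z then a z else z

theorem cutf_invol {a : ℕ → ℕ} (ha : Involutive a) (m : ℕ) : Involutive (cutf a m) := by
  intro z
  unfold cutf
  by_cases h : m ≤ z ∧ m ≤ a z
  · rw [if_pos h, ha z, if_pos ⟨h.2, h.1⟩]
  · rw [if_neg h, if_neg h]

/-- The permutation `cutf a m`. -/
def cut {a : ℕ → ℕ} (ha : Involutive a) (m : ℕ) : Equiv.Perm ℕ := (cutf_invol ha m).toPerm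

theorem cut_apply {a : ℕ → ℕ} (ha : Involutive a) (m z : ℕ) : cut ha m z = cutf a m z := rfl

theorem count_le_iff {p : ℕ → Prop} [DecidablePred p] {y : ℕ} (hy : p y) (m : ℕ) :
    Nat.count p m ≤ Nat.count p y ↔ m ≤ y := by
  constructor
  · intro h
    by_contra hlt
    have := Nat.count_strict_mono hy (Nat.lt_of_not_le hlt)
    omega
  · intro h
    exact Nat.count_monotone p h

open Classical in
theorem exists_conj {a : ℕ → ℕ} (ha : Involutive a) (hX : {x | x < a x}.Infinite)
    (hF : {x | a x = x}.Infinite) :
    ∃ g : Equiv.Perm ℕ, ∀ m, cut ha m = g * v (Nat.count (fun x => x < a x) m) * g⁻¹ := by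
  have hX' : (Set.ofPred (fun x => x < a x)).Infinite := hX
  have hF' : (Set.ofPred (fun x => a x = x)).Infinite := hF
  let X : ℕ → Prop := fun x => x < a x
  let F : ℕ → Prop := fun x => a x = x
  let f : ℕ → ℕ := fun z => if z % 4 = 0 then Nat.nth X (z / 4) else
    if z % 4 = 1 then a (Nat.nth X (z / 4)) else Nat.nth F (2 * (z / 4) + (z % 4 - 2))
  let h : ℕ → ℕ := fun y => if y < a y then 4 * Nat.count X y else
    if a y < y then 4 * Nat.count X (a y) + 1 else 4 * (Nat.count F y / 2) + 2 + Nat.count F y % 2
  have nX : ∀ k, Nat.nth X k < a (Nat.nth X k) := fun k => Nat.nth_mem_of_infinite hX' k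
  have nF : ∀ k, a (Nat.nth F k) = Nat.nth F k := fun k => Nat.nth_mem_of_infinite hF' k
  have cX : ∀ k, Nat.count X (Nat.nth X k) = k := fun k => Nat.count_nth_of_infinite hX' k
  have cF : ∀ k, Nat.count F (Nat.nth F k) = k := fun k => Nat.count_nth_of_infinite hF' k
  have hl : LeftInverse h f := by
    intro z
    by_cases h0 : z % 4 = 0
    · have e : f z = Nat.nth X (z / 4) := if_pos h0
      rw [e]
      change (if Nat.nth X (z / 4) < a (Nat.nth X (z / 4)) then _ else _) = _
      rw [if_pos (nX _), cX]
      omega
    · by_cases h1 : z % 4 = 1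
      · have e : f z = a (Nat.nth X (z / 4)) := by
          change (if z % 4 = 0 then _ else _) = _
          rw [if_neg h0, if_pos h1]
        rw [e]
        change (if a (Nat.nth X (z / 4)) < a (a (Nat.nth X (z / 4))) then _ else _) = _
        rw [ha, if_neg (by have := nX (z / 4); omega), if_pos (nX _), cX]
        omega
      · have e : f z = Nat.nth F (2 * (z / 4) + (z % 4 - 2)) := by
          change (if z % 4 = 0 then _ else _) = _
          rw [if_neg h0, if_neg h1]
        rw [e]
        change (if _ < a (Nat.nth F (2 * (z / 4) + (z % 4 - 2))) then _ else _) = _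
        rw [nF, if_neg (lt_irrefl _), if_neg (lt_irrefl _), cF]
        omega
  have hr : RightInverse h f := by
    intro y
    rcases lt_trichotomy y (a y) with h0 | h0 | h0
    · have e : h y = 4 * Nat.count X y := if_pos h0
      rw [e]
      change (if 4 * Nat.count X y % 4 = 0 then _ else _) = _
      rw [if_pos (by omega), Nat.mul_div_cancel_left _ (by norm_num), Nat.nth_count (p := X) h0]
    · have e : h y = 4 * (Nat.count F y / 2) + 2 + Nat.count F y % 2 := by
        change (if y < a y then _ else _) = _
        rw [if_neg (by omega), if_neg (by omega)]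
      rw [e]
      change (if _ then _ else _) = _
      rw [if_neg (by omega), if_neg (by omega)]
      have e2 : 2 * ((4 * (Nat.count F y / 2) + 2 + Nat.count F y % 2) / 4) +
          ((4 * (Nat.count F y / 2) + 2 + Nat.count F y % 2) % 4 - 2) = Nat.count F y := by omega
      rw [e2]
      exact Nat.nth_count (p := F) h0.symm
    · have e : h y = 4 * Nat.count X (a y) + 1 := by
        change (if y < a y then _ else _) = _
        rw [if_neg (by omega), if_pos h0]
      have hay : X (a y) := by
        change a y < a (a y)
        rw [ha]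
        exact h0
      rw [e]
      change (if _ then _ else _) = _
      rw [if_neg (by omega), if_pos (by omega)]
      have e2 : (4 * Nat.count X (a y) + 1) / 4 = Nat.count X (a y) := by omega
      rw [e2, Nat.nth_count hay, ha]
  let g : Equiv.Perm ℕ := ⟨f, h, hl, hr⟩
  refine ⟨g, fun m => ?_⟩
  ext y
  rw [Equiv.Perm.mul_apply, Equiv.Perm.mul_apply, cut_apply, v_apply]
  change cutf a m y = f (w (Nat.count X m) (h y))
  rcases lt_trichotomy y (a y) with h0 | h0 | h0
  · have e : h y = 4 * Nat.count X y := if_pos h0
    have hiff := count_le_iff (p := X) h0 m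
    rw [e]
    unfold cutf w
    by_cases hm : m ≤ y
    · have := hiff.2 hm
      rw [if_pos ⟨hm, by omega⟩, if_pos (by omega), if_pos (by omega)]
      change _ = (if _ then _ else _)
      rw [if_neg (by omega), if_pos (by omega)]
      have e2 : (4 * Nat.count X y + 1) / 4 = Nat.count X y := by omega
      rw [e2, Nat.nth_count (p := X) h0]
    · have : ¬ Nat.count X m ≤ Nat.count X y := fun h => hm (hiff.1 h)
      rw [if_neg (by omega), if_neg (by omega), ← e]
      exact (hr y).symm
  · unfold cutf
    rw [← h0, ite_self]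
    have e : h y = 4 * (Nat.count F y / 2) + 2 + Nat.count F y % 2 := by
      change (if y < a y then _ else _) = _
      rw [if_neg (by omega), if_neg (by omega)]
    have e2 : w (Nat.count X m) (h y) = h y := by
      rw [e]
      unfold w
      split_ifs <;> omega
    rw [e2]
    exact (hr y).symm
  · have e : h y = 4 * Nat.count X (a y) + 1 := by
      change (if y < a y then _ else _) = _
      rw [if_neg (by omega), if_pos h0]
    have hay : X (a y) := by
      change a y < a (a y)
      rw [ha]
      exact h0
    have hiff := count_le_iff (p := X) hay m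
    unfold cutf
    by_cases hm : m ≤ a y
    · have := hiff.2 hm
      rw [if_pos ⟨by omega, hm⟩, e]
      unfold w
      rw [if_pos (by omega), if_neg (by omega), if_pos (by omega)]
      change _ = (if _ then _ else _)
      rw [if_pos (by omega)]
      have e2 : (4 * Nat.count X (a y) + 1 - 1) / 4 = Nat.count X (a y) := by omega
      rw [e2, Nat.nth_count hay]
    · have : ¬ Nat.count X m ≤ Nat.count X (a y) := fun h => hm (hiff.1 h)
      rw [if_neg (by omega)]
      have e2 : w (Nat.count X m) (h y) = h y := by
        rw [e]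
        unfold w
        rw [if_neg (by omega)]
      rw [e2]
      exact (hr y).symm

/-- Tails of involutions with infinitely many pairs and infinitely many fixed points are small. -/
theorem tail_mem {σ : TopologicalSpace (Equiv.Perm ℕ)}
    (hσ : @IsTopologicalGroup (Equiv.Perm ℕ) σ _)
    (hv : Tendsto v atTop (@nhds _ σ 1)) {V : Set (Equiv.Perm ℕ)} (hV : V ∈ @nhds _ σ 1)
    {a : ℕ → ℕ} (ha : Involutive a) (hX : {x | x < a x}.Infinite)
    (hF : {x | a x = x}.Infinite) : ∃ M, ∀ m, M ≤ m → cut ha m ∈ V := by
  classical
  obtain ⟨g, hg⟩ := exists_conj ha hX hF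
  have h1 : Tendsto (fun j => g * v j * g⁻¹) atTop (@nhds _ σ (g * 1 * g⁻¹)) :=
    (tendsto_const_nhds.mul hv).mul tendsto_const_nhds
  rw [mul_one, mul_inv_cancel] at h1
  have h2 := h1 hV
  rw [mem_map, mem_atTop_sets] at h2
  obtain ⟨J, hJ⟩ := h2
  refine ⟨Nat.nth (fun x => x < a x) J, fun m hm => ?_⟩
  rw [hg m]
  have h3 : Nat.count (fun x => x < a x) (Nat.nth (fun x => x < a x) J) = J :=
    Nat.count_nth_of_infinite (p := fun x => x < a x) hX J
  have h4 := Nat.count_monotone (fun x => x < a x) hm
  rw [h3] at h4
  exact hJ _ h4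

end Pool.Agent.H60R3.Sym
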