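import Mathlib

/-!
# Every permutation is a product of two involutions, keeping the fixed points
-/

namespace Pool.Agent.H60R3.Sym

open Function

theorem exists_two_involutive {α : Type*} (g : Equiv.Perm α) :
    ∃ (a b : α → α) (ha : Involutive a) (hb : Involutive b),
      g = hb.toPerm * ha.toPerm ∧ ∀ z, g z = z → a z = z ∧ b z = z := by
  classical
  let s : Setoid α := Equiv.Perm.SameCycle.setoid g
  let r : α → α := fun z => (Quotient.mk s z).out
  have hr : ∀ z, ∃ i : ℤ, (g ^ i) (r z) = z := fun z => Quotient.mk_out (s := s) z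
  choose k hk using hr
  have hrr : ∀ z y (i : ℤ), (g ^ i) z = y → r y = r z := by
    intro z y i h
    have : (Quotient.mk s y) = Quotient.mk s z := by
      apply Quotient.sound
      exact Equiv.Perm.SameCycle.symm (show Equiv.Perm.SameCycle g z y from ⟨i, h⟩)
    simp only [r, this]
  have hz : ∀ (i j : ℤ) (x : α), (g ^ i) x = (g ^ j) x → ∀ l : ℤ, (g ^ (l + i)) x = (g ^ (l + j)) x := by
    intro i j x h l
    rw [zpow_add, zpow_add, Equiv.Perm.mul_apply, Equiv.Perm.mul_apply, h]
  let a : α → α := fun z => (g ^ (-(k z))) (r z)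
  have hra : ∀ z, r (a z) = r z := by
    intro z
    have h1 : (g ^ (-(k z))) (r z) = a z := rfl
    have h2 := hrr (r z) (a z) _ h1
    have h3 := hrr (r z) z _ (hk z)
    exact h2.trans h3.symm
  have ha : Involutive a := by
    intro z
    have h1 := hk (a z)
    rw [hra z] at h1
    -- h1 : g ^ k (a z) (r z) = a z = g ^ (- k z) (r z)
    have h2 : (g ^ (k (a z))) (r z) = (g ^ (-(k z))) (r z) := h1
    have h3 := hz _ _ _ h2 (k z - k (a z))
    have h4 : (g ^ (k z)) (r z) = (g ^ (-(k (a z)))) (r z) := by
      have e1 : k z - k (a z) + k (a z) = k z := by ring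
      have e2 : k z - k (a z) + -(k z) = -(k (a z)) := by ring
      rw [e1, e2] at h3
      exact h3
    have h5 : a (a z) = (g ^ (-(k (a z)))) (r (a z)) := rfl
    rw [h5, hra z, ← h4, hk z]
  let b : α → α := fun z => g (a z)
  have hb : Involutive b := by
    intro z
    -- y = g (a z)
    have hy : b z = (g ^ (1 + -(k z))) (r z) := by
      rw [zpow_add, zpow_one, Equiv.Perm.mul_apply]
    have hry : r (b z) = r z := by
      have h2 := hrr (r z) (b z) _ hy.symm
      have h3 := hrr (r z) z _ (hk z)
      exact h2.trans h3.symm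
    have h1 := hk (b z)
    rw [hry] at h1
    have h2 : (g ^ (k (b z))) (r z) = (g ^ (1 + -(k z))) (r z) := by rw [h1, hy]
    have h3 := hz _ _ _ h2 (k z - k (b z))
    have e1 : k z - k (b z) + k (b z) = k z := by ring
    have e2 : k z - k (b z) + (1 + -(k z)) = 1 + -(k (b z)) := by ring
    rw [e1, e2, hk z] at h3
    have h5 : b (b z) = g ((g ^ (-(k (b z)))) (r (b z))) := rfl
    rw [h5, hry, ← Equiv.Perm.mul_apply]
    rw [zpow_add, zpow_one] at h3
    exact h3.symm
  refine ⟨a, b, ha, hb, ?_, ?_⟩
  · ext z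
    simp only [Equiv.Perm.mul_apply, Function.Involutive.coe_toPerm]
    change g z = g (a (a z))
    rw [ha z]
  · intro z hgz
    have h1 : ∀ i : ℤ, (g ^ i) z = z := fun i =>
      Equiv.Perm.zpow_apply_eq_self_of_apply_eq_self hgz i
    have h2 : r z = z := by
      have h3 := hk z
      have h4 : (g ^ (-(k z))) ((g ^ (k z)) (r z)) = (g ^ (-(k z))) z := by rw [h3]
      rw [← Equiv.Perm.mul_apply, ← zpow_add, neg_add_cancel, zpow_zero, Equiv.Perm.one_apply,
        h1] at h4
      exact h4
    have h5 : a z = z := by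
      change (g ^ (-(k z))) (r z) = z
      rw [h2, h1]
    exact ⟨h5, by change g (a z) = z; rw [h5, hgz]⟩

end Pool.Agent.H60R3.Sym
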