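import Mathlib
import Pool.Agent.H60R3.SymTail
import Pool.Agent.H60R3.SymTwoInv

/-!
# Neighbourhoods of the identity contain the pointwise stabilisers of finite sets
-/

namespace Pool.Agent.H60R3.Sym

open Function Filter Topology

section
variable {σ : TopologicalSpace (Equiv.Perm ℕ)} (hσ : @IsTopologicalGroup (Equiv.Perm ℕ) σ _)
  (hv : Tendsto v atTop (@nhds _ σ 1))
include hσ hv

/-- Involutions with finite support which fix a long initial segment are in `V * V`. -/
theorem finite_mem {V : Set (Equiv.Perm ℕ)} (hV : V ∈ @nhds _ σ 1) :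
    ∃ n, ∀ (f : ℕ → ℕ) (hf : Involutive f) (N : ℕ), (∀ z, N ≤ z → f z = z) →
      (∀ z, z < n → f z = z) → ∃ p ∈ V, ∃ q ∈ V, hf.toPerm = p * q := by
  by_contra hcon
  push Not at hcon
  choose F hF N hN hn hbad using hcon
  have h1V : (1 : Equiv.Perm ℕ) ∈ V := mem_of_mem_nhds hV
  -- the block boundaries
  obtain ⟨s, hs0, hs1⟩ : ∃ s : ℕ → ℕ, s 0 = 0 ∧ ∀ k, s (k + 1) = max (N (s k)) (s k) + 1 :=
    ⟨fun k => Nat.rec (motive := fun _ => ℕ) 0 (fun _ x => max (N x) x + 1) k, rfl, fun _ => rfl⟩
  have hslt : ∀ k, s k < s (k + 1) := fun k => by rw [hs1]; have := le_max_right (N (s k)) (s k); omega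
  have hsm : StrictMono s := strictMono_nat_of_lt_succ hslt
  have hsN : ∀ k, N (s k) < s (k + 1) := fun k => by
    rw [hs1]; have := le_max_left (N (s k)) (s k); omega
  -- preservation of the blocks
  have hpres : ∀ k z, s k ≤ z → z < s (k + 1) → s k ≤ F (s k) z ∧ F (s k) z < s (k + 1) := by
    intro k z h1 h2
    constructor
    · by_contra h
      have h3 := hn (s k) (F (s k) z) (by omega)
      rw [hF (s k) z] at h3
      omega
    · by_contra h
      have h3 := hN (s k) (F (s k) z) (by have := hsN k; omega)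
      rw [hF (s k) z] at h3
      omega
  have hex : ∀ z, ∃ k, s k ≤ z ∧ z < s (k + 1) := by
    intro z
    have h1 : ∃ k, z < s (k + 1) := ⟨z, lt_of_lt_of_le (Nat.lt_succ_self z) (hsm.id_le _)⟩
    classical
    refine ⟨Nat.find h1, ?_, Nat.find_spec h1⟩
    rcases Nat.eq_zero_or_pos (Nat.find h1) with h2 | h2
    · rw [h2, hs0]
      exact Nat.zero_le z
    · have h3 := Nat.find_min h1 (Nat.sub_lt h2 one_pos)
      rw [show Nat.find h1 - 1 + 1 = Nat.find h1 by omega] at h3
      omega
  choose blk hblk1 hblk2 using hex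
  have hblk : ∀ k z, s k ≤ z → z < s (k + 1) → blk z = k := by
    intro k z h1 h2
    have h3 : blk z < k + 1 := hsm.lt_iff_lt.1 (lt_of_le_of_lt (hblk1 z) h2)
    have h4 : k < blk z + 1 := hsm.lt_iff_lt.1 (lt_of_le_of_lt h1 (hblk2 z))
    omega
  let T : ℕ → ℕ := fun z => F (s (blk z)) z
  have hTb : ∀ z, s (blk z) ≤ T z ∧ T z < s (blk z + 1) := fun z =>
    hpres _ _ (hblk1 z) (hblk2 z)
  have hbT : ∀ z, blk (T z) = blk z := fun z => hblk _ _ (hTb z).1 (hTb z).2
  have hTk : ∀ k z, s k ≤ z → z < s (k + 1) → T z = F (s k) z := by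
    intro k z h1 h2
    change F (s (blk z)) z = _
    rw [hblk k z h1 h2]
  have hTi : Involutive T := by
    intro z
    change F (s (blk (T z))) (T z) = z
    rw [hbT z]
    exact hF _ z
  have hTge : ∀ k z, s k ≤ z → s k ≤ T z := by
    intro k z h
    have h1 : k < blk z + 1 := hsm.lt_iff_lt.1 (lt_of_le_of_lt h (hblk2 z))
    have h2 : s k ≤ s (blk z) := hsm.monotone (by omega)
    exact le_trans h2 (hTb z).1
  -- every block contains a pair
  have hpair : ∀ k, ∃ x, s k ≤ x ∧ x < T x := by
    intro k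
    have hne : ∃ z, F (s k) z ≠ z := by
      by_contra h
      push Not at h
      apply hbad (s k) 1 h1V 1 h1V
      ext z
      simp [h z]
    obtain ⟨z, hz⟩ := hne
    have h1 : s k ≤ z := by
      by_contra h
      exact hz (hn (s k) z (by omega))
    have h2 : z < s (k + 1) := by
      by_contra h
      exact hz (hN (s k) z (by have := hsN k; omega))
    have h3 := hTk k z h1 h2
    rcases lt_or_gt_of_ne hz with h4 | h4
    · refine ⟨T z, hTge k z h1, ?_⟩
      rw [hTi z, h3]
      exact h4
    · exact ⟨z, h1, by rw [h3]; exact h4⟩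
  have hX : {x | x < T x}.Infinite := by
    rw [Set.infinite_iff_exists_gt]
    intro n
    obtain ⟨x, h1, h2⟩ := hpair (n + 1)
    exact ⟨x, h2, lt_of_lt_of_le (Nat.lt_succ_self n) (le_trans (hsm.id_le _) h1)⟩
  have hFix : {x | T x = x}.Infinite := by
    rw [Set.infinite_iff_exists_gt]
    intro n
    have h1 := hs1 (n + 1)
    have h0 : n + 1 ≤ s (n + 1) := hsm.id_le _
    have h2 := le_max_left (N (s (n + 1))) (s (n + 1))
    have h3 := le_max_right (N (s (n + 1))) (s (n + 1))
    refine ⟨max (N (s (n + 1))) (s (n + 1)), ?_, by omega⟩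
    change T _ = _
    rw [hTk (n + 1) _ h3 (by omega)]
    exact hN _ _ h2
  obtain ⟨M, hM⟩ := tail_mem hσ hv hV hTi hX hFix
  have h1 : M ≤ s M := hsm.id_le _
  have h2 : M ≤ s (M + 1) := le_trans h1 (hslt M).le
  refine hbad (s M) _ (hM _ h1) _ (hM _ h2) ?_
  ext z
  rw [Equiv.Perm.mul_apply, cut_apply, cut_apply, Function.Involutive.coe_toPerm]
  unfold cutf
  by_cases c1 : s (M + 1) ≤ z
  · have c2 := hTge (M + 1) z c1
    have c3 := hslt M
    have e1 : (if s (M + 1) ≤ z ∧ s (M + 1) ≤ T z then T z else z) = T z := if_pos ⟨c1, c2⟩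
    rw [e1, hTi z, if_pos ⟨by omega, by omega⟩]
    exact hN _ _ (by have := hsN M; omega)
  · have e1 : (if s (M + 1) ≤ z ∧ s (M + 1) ≤ T z then T z else z) = z :=
      if_neg fun h => c1 h.1
    rw [e1]
    by_cases c2 : s M ≤ z
    · rw [if_pos ⟨c2, hTge M z c2⟩, hTk M z c2 (by omega)]
    · rw [if_neg (show ¬ (s M ≤ z ∧ s M ≤ T z) from fun h => c2 h.1)]
      exact hn _ _ (by omega)

/-- Involutions which fix a long initial segment are in `W`. -/
theorem invol_mem {W : Set (Equiv.Perm ℕ)} (hW : W ∈ @nhds _ σ 1) :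
    ∃ n, ∀ (f : ℕ → ℕ) (hf : Involutive f), (∀ z, z < n → f z = z) → hf.toPerm ∈ W := by
  classical
  obtain ⟨W1, hW1, hW2⟩ := exists_nhds_one_split hW
  obtain ⟨V, hV, hV2⟩ := exists_nhds_one_split4 hW1
  obtain ⟨n, hn⟩ := finite_mem hσ hv hV
  have h1V : (1 : Equiv.Perm ℕ) ∈ V := mem_of_mem_nhds hV
  have h1W : (1 : Equiv.Perm ℕ) ∈ W1 := mem_of_mem_nhds hW1
  have keyA : ∀ (f : ℕ → ℕ) (hf : Involutive f), (∀ z, z < n → f z = z) →
      {x | x < f x}.Infinite → {x | f x = x}.Infinite → hf.toPerm ∈ W1 := by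
    intro f hf hfn hX hF
    obtain ⟨M, hM⟩ := tail_mem hσ hv hV hf hX hF
    let e : ℕ → ℕ := fun z => if M ≤ z ∧ M ≤ f z then z else f z
    have he : Involutive e := by
      intro z
      change (if M ≤ (if M ≤ z ∧ M ≤ f z then z else f z) ∧ M ≤ f (if M ≤ z ∧ M ≤ f z then z else f z)
        then (if M ≤ z ∧ M ≤ f z then z else f z) else f (if M ≤ z ∧ M ≤ f z then z else f z)) = z
      by_cases h : M ≤ z ∧ M ≤ f z
      · rw [if_pos h, if_pos h]
      · rw [if_neg h, hf z, if_neg (fun h' => h ⟨h'.2, h'.1⟩)]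
    have hfin : ∃ N, ∀ z, N ≤ z → e z = z := by
      refine ⟨M + (Finset.range M).sup f + 1, fun z hz => ?_⟩
      apply if_pos
      refine ⟨by omega, ?_⟩
      by_contra h
      have h1 : f z ∈ Finset.range M := Finset.mem_range.2 (by omega)
      have h2 := Finset.le_sup (f := f) h1
      rw [hf z] at h2
      omega
    obtain ⟨N, hN⟩ := hfin
    obtain ⟨p, hp, q, hq, hpq⟩ := hn e he N hN (fun z hz => by
      change (if M ≤ z ∧ M ≤ f z then z else f z) = z
      rw [hfn z hz, ite_self])
    have h3 := hV2 hp hq (hM M le_rfl) h1V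
    have h4 : hf.toPerm = p * q * cut hf M * 1 := by
      rw [mul_one, ← hpq]
      ext z
      rw [Equiv.Perm.mul_apply, cut_apply]
      change f z = e (cutf f M z)
      unfold cutf
      by_cases h : M ≤ z ∧ M ≤ f z
      · rw [if_pos h]
        exact (if_pos ⟨h.2, by rw [hf z]; exact h.1⟩ : e (f z) = f z).symm
      · rw [if_neg h]
        exact (if_neg h : e z = f z).symm
    rw [h4]
    exact h3
  refine ⟨n, fun f hf hfn => ?_⟩
  by_cases hX : {x | x < f x}.Infinite
  · -- split the pairs into two infinite classes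
    let X : ℕ → Prop := fun x => x < f x
    have hX' : (Set.ofPred X).Infinite := hX
    let idx : ℕ → ℕ := fun z => Nat.count X (min z (f z))
    have hidx : ∀ z, idx (f z) = idx z := fun z => by
      change Nat.count X (min (f z) (f (f z))) = _
      rw [hf z, min_comm]
    let fr : ℕ → ℕ → ℕ := fun r z => if idx z % 2 = r then f z else z
    have hfr : ∀ r, Involutive (fr r) := by
      intro r z
      change (if idx (if idx z % 2 = r then f z else z) % 2 = r then
        f (if idx z % 2 = r then f z else z) else (if idx z % 2 = r then f z else z)) = z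
      by_cases h : idx z % 2 = r
      · rw [if_pos h, hidx z, if_pos h, hf z]
      · rw [if_neg h, if_neg h]
    have hnth : ∀ k, Nat.nth X k < f (Nat.nth X k) := fun k => Nat.nth_mem_of_infinite hX' k
    have hidn : ∀ k, idx (Nat.nth X k) = k := fun k => by
      change Nat.count X (min (Nat.nth X k) (f (Nat.nth X k))) = k
      rw [min_eq_left (hnth k).le, Nat.count_nth_of_infinite hX']
    have hmono : StrictMono (Nat.nth X) := Nat.nth_strictMono hX'
    have hXr : ∀ r, r < 2 → {x | x < fr r x}.Infinite := by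
      intro r hr
      rw [Set.infinite_iff_exists_gt]
      intro b
      refine ⟨Nat.nth X (2 * (b + 1) + r), ?_, ?_⟩
      · have e : fr r (Nat.nth X (2 * (b + 1) + r)) = f (Nat.nth X (2 * (b + 1) + r)) :=
          if_pos (by rw [hidn]; omega)
        rw [Set.mem_ofPred_eq, e]
        exact hnth _
      · have e : 2 * (b + 1) + r ≤ Nat.nth X (2 * (b + 1) + r) := hmono.id_le _
        exact lt_of_lt_of_le (by omega) e
    have hFr : ∀ r, r < 2 → {x | fr r x = x}.Infinite := by
      intro r hr
      rw [Set.infinite_iff_exists_gt]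
      intro b
      refine ⟨Nat.nth X (2 * (b + 1) + (1 - r)), ?_, ?_⟩
      · rw [Set.mem_ofPred_eq]
        exact if_neg (by rw [hidn]; omega)
      · have e : 2 * (b + 1) + (1 - r) ≤ Nat.nth X (2 * (b + 1) + (1 - r)) := hmono.id_le _
        exact lt_of_lt_of_le (by omega) e
    have hfix : ∀ r z, z < n → fr r z = z := by
      intro r z hz
      change (if idx z % 2 = r then f z else z) = z
      rw [hfn z hz, ite_self]
    have h0 := keyA (fr 0) (hfr 0) (hfix 0) (hXr 0 (by norm_num)) (hFr 0 (by norm_num))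
    have h1 := keyA (fr 1) (hfr 1) (hfix 1) (hXr 1 (by norm_num)) (hFr 1 (by norm_num))
    have h2 := hW2 _ h0 _ h1
    have h3 : hf.toPerm = (hfr 0).toPerm * (hfr 1).toPerm := by
      ext z
      rw [Equiv.Perm.mul_apply]
      change f z = fr 0 (fr 1 z)
      by_cases h : idx z % 2 = 1
      · have e1 : fr 1 z = f z := if_pos h
        have e2 : fr 0 (f z) = f z := if_neg (by rw [hidx z]; omega)
        rw [e1, e2]
      · have e1 : fr 1 z = z := if_neg h
        have e2 : fr 0 z = f z := if_pos (by omega)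
        rw [e1, e2]
    rw [h3]
    exact h2
  · have hfin : {x | x < f x}.Finite := Set.not_infinite.1 hX
    obtain ⟨B, hB⟩ := hfin.bddAbove
    have hN : ∀ z, B + (Finset.range (B + 1)).sup f + 1 ≤ z → f z = z := by
      intro z hz
      rcases lt_trichotomy z (f z) with h | h | h
      · have := hB h
        omega
      · exact h.symm
      · have h1 : f z ∈ {x | x < f x} := by
          change f z < f (f z)
          rw [hf z]
          exact h
        have h2 := hB h1
        have h3 : f z ∈ Finset.range (B + 1) := Finset.mem_range.2 (by omega)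
        have h4 := Finset.le_sup (f := f) h3
        rw [hf z] at h4
        omega
    obtain ⟨p, hp, q, hq, hpq⟩ := hn f hf _ hN hfn
    have h3 := hV2 hp hq h1V h1V
    have h4 := hW2 _ h3 _ h1W
    rw [mul_one, mul_one, mul_one, ← hpq] at h4
    exact h4

/-- Every neighbourhood of the identity contains the pointwise stabiliser of a finite set. -/
theorem stab_mem {W : Set (Equiv.Perm ℕ)} (hW : W ∈ @nhds _ σ 1) :
    ∃ n, ∀ g : Equiv.Perm ℕ, (∀ z, z < n → g z = z) → g ∈ W := by
  obtain ⟨V, hV, hV2⟩ := exists_nhds_one_split hW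
  obtain ⟨n, hn⟩ := invol_mem hσ hv hV
  refine ⟨n, fun g hg => ?_⟩
  obtain ⟨a, b, ha, hb, hgab, hfix⟩ := exists_two_involutive g
  rw [hgab]
  exact hV2 _ (hn b hb fun z hz => (hfix z (hg z hz)).2) _
    (hn a ha fun z hz => (hfix z (hg z hz)).1)

end

end Pool.Agent.H60R3.Sym
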